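import Mathlib

/-!
Herglotz representation, Harnack's lower bound and Caratheodory's coefficient bound
for holomorphic functions on the closed unit disc.
-/

set_option autoImplicit false

open Complex Metric Real MeasureTheory

namespace Pool.Agent.Lib.MP_7682a8_an.H10

noncomputable section

lemma diffContOnCl_of_big {f : ℂ → ℂ} {R : ℝ} (hR : 1 < R) (hf : DifferentiableOn ℂ f (ball 0 R)) :
    DiffContOnCl ℂ f (ball 0 1) := by
  refine DifferentiableOn.diffContOnCl ?_
  rw [closure_ball (0:ℂ) one_ne_zero]
  exact hf.mono (closedBall_subset_ball hR)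

lemma re_circleIntegrable {f : ℂ → ℂ} {R : ℝ} (hR : 1 < R) (hf : DifferentiableOn ℂ f (ball 0 R)) :
    CircleIntegrable (fun z => (f z).re) 0 1 := by
  apply ContinuousOn.circleIntegrable zero_le_one
  have : ContinuousOn f (sphere 0 1) := hf.continuousOn.mono (sphere_subset_ball hR)
  exact Complex.continuous_re.comp_continuousOn this

lemma ofReal_re_circleIntegrable {f : ℂ → ℂ} {R : ℝ} (hR : 1 < R)
    (hf : DifferentiableOn ℂ f (ball 0 R)) :
    CircleIntegrable (fun z => ((f z).re : ℂ)) 0 1 := by
  apply ContinuousOn.circleIntegrable zero_le_one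
  have : ContinuousOn f (sphere 0 1) := hf.continuousOn.mono (sphere_subset_ball hR)
  exact Complex.continuous_ofReal.comp_continuousOn (Complex.continuous_re.comp_continuousOn this)

/-- The real part of Poisson's formula. -/
lemma re_poisson {f : ℂ → ℂ} {R : ℝ} (hR : 1 < R) (hf : DifferentiableOn ℂ f (ball 0 R))
    {w : ℂ} (hw : w ∈ ball (0:ℂ) 1) :
    circleAverage (fun ζ => ((ζ + w) / (ζ - w)).re * (f ζ).re) 0 1 = (f w).re := by
  have h1 := (diffContOnCl_of_big hR hf).circleAverage_re_herglotzRieszKernel_smul' hw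
  have hcont : ContinuousOn f (sphere 0 |1|) := by
    rw [abs_one]; exact hf.continuousOn.mono (sphere_subset_ball hR)
  have h2 : ContinuousOn (fun z : ℂ => ((z - 0 + (w - 0)) / ((z - 0) - (w - 0))).re) (sphere 0 |1|) := by
    have := continuousOn_herglotzRieszKernel_sphere (c := 0) hw
    exact Complex.continuous_re.comp_continuousOn this
  have h3 : CircleIntegrable (fun z : ℂ => ((z - 0 + (w - 0)) / ((z - 0) - (w - 0))).re • f z) 0 1 := by
    apply ContinuousOn.circleIntegrable'
    exact h2.smul hcont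
  have h4 := Complex.reCLM.circleAverage_comp_comm h3
  rw [h1] at h4
  rw [← Complex.reCLM_apply (f w), ← h4]
  congr 1
  ext z
  simp

/-- Herglotz's (Schwarz's) integral formula. -/
lemma herglotz {f : ℂ → ℂ} {R : ℝ} (hR : 1 < R) (hf : DifferentiableOn ℂ f (ball 0 R))
    {w : ℂ} (hw : w ∈ ball (0:ℂ) 1) :
    f w = circleAverage (fun ζ => ((ζ + w) / (ζ - w)) * ((f ζ).re : ℂ)) 0 1 + I * ((f 0).im : ℂ) := by
  set Q : ℂ → ℂ := fun w => circleAverage (fun ζ => herglotzRieszKernel 0 w ζ • ((f ζ).re : ℂ)) 0 1
    with hQ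
  have hint := re_circleIntegrable hR hf
  have hint' := ofReal_re_circleIntegrable hR hf
  have hQd : DifferentiableOn ℂ Q (ball 0 1) :=
    differentiableOn_circleAverage_herglotzRieszKernel_smul hint'
  have hre : ∀ z ∈ ball (0:ℂ) 1, (Q z).re = (f z).re := by
    intro z hz
    have h1 := re_circleAverage_herglotzRieszKernel_smul hint hz
    rw [hQ]
    simp only
    rw [h1, ← re_poisson hR hf hz]
    congr 1
    ext ζ
    simp [herglotzRieszKernel_def]
  -- the difference is constant
  have hfd : DifferentiableOn ℂ f (ball 0 1) := hf.mono (ball_subset_ball hR.le)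
  have hconst : ∀ z ∈ ball (0:ℂ) 1, f z - Q z = f 0 - Q 0 := by
    have hd : DifferentiableOn ℂ (fun z => f z - Q z) (ball 0 1) := hfd.sub hQd
    have hder : ∀ z ∈ ball (0:ℂ) 1, deriv (fun z => f z - Q z) z = 0 := by
      intro z hz
      have hda : DifferentiableAt ℂ (fun z => f z - Q z) z := hd.differentiableAt (isOpen_ball.mem_nhds hz)
      have hre0 : ∀ y ∈ ball (0:ℂ) 1, ((fun z => f z - Q z) y).re = 0 := by
        intro y hy; simp [hre y hy]
      have key : ∀ d : ℂ, (deriv (fun z => f z - Q z) z * d).re = 0 := by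
        intro d
        have h1 : HasDerivAt (fun t : ℝ => (fun z => f z - Q z) (z + t * d))
            (deriv (fun z => f z - Q z) z * d) 0 := by
          have h2 : HasDerivAt (fun t : ℂ => z + t * d) d ((0:ℝ):ℂ) := by
            simpa using ((hasDerivAt_id ((0:ℝ):ℂ)).mul_const d).const_add z
          have h3 : HasDerivAt (fun z => f z - Q z) (deriv (fun z => f z - Q z) z)
              (z + ((0:ℝ):ℂ) * d) := by
            simpa using hda.hasDerivAt
          have h4 := h3.comp ((0:ℝ):ℂ) h2
          exact h4.comp_ofReal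
        have h5 := Complex.reCLM.hasFDerivAt.comp_hasDerivAt (0:ℝ) h1
        have h6 : HasDerivAt (fun t : ℝ => (0:ℝ)) 0 0 := hasDerivAt_const _ _
        have h7 : (fun t : ℝ => (Complex.reCLM ((fun z => f z - Q z) (z + t * d)))) =ᶠ[nhds 0]
            (fun t : ℝ => (0:ℝ)) := by
          have hc : ContinuousAt (fun t : ℝ => z + t * d) 0 := by fun_prop
          have hmem : ball (0:ℂ) 1 ∈ nhds ((fun t : ℝ => z + t * d) 0) := by
            simpa using isOpen_ball.mem_nhds hz
          filter_upwards [hc hmem] with t ht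
          exact hre0 _ ht
        have h8 := (h6.congr_of_eventuallyEq h7)
        have h9 := h5.unique h8
        simpa using h9
      have k1 := key 1
      have k2 := key I
      apply Complex.ext
      · simpa using k1
      · have : (deriv (fun z => f z - Q z) z * I).re = -(deriv (fun z => f z - Q z) z).im := by simp
        rw [this] at k2
        simpa using k2
    intro z hz
    exact (convex_ball (0:ℂ) 1).is_const_of_fderivWithin_eq_zero hd (by
      intro y hy
      rw [fderivWithin_of_isOpen isOpen_ball hy]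
      ext
      simp [hder y hy]) hz (mem_ball_self one_pos)
  have h0 : Q 0 = ((f 0).re : ℂ) := by
    have e1 : (Q 0).re = (f 0).re := hre 0 (mem_ball_self one_pos)
    have e2 : (Q 0).im = 0 := by
      have h1 : Q 0 = circleAverage (fun ζ => ((f ζ).re : ℂ)) 0 1 := by
        rw [hQ]
        simp only
        apply circleAverage_congr_sphere
        intro ζ hζ
        have hne : ζ ≠ 0 := by
          rintro rfl; simp at hζ
        simp [herglotzRieszKernel_def, div_self hne]
      have h2 := Complex.ofRealCLM.circleAverage_comp_comm hint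
      rw [h1]
      have h3 : (circleAverage (fun ζ => ((f ζ).re : ℂ)) 0 1) =
          Complex.ofRealCLM (circleAverage (fun ζ => (f ζ).re) 0 1) := by
        rw [← h2]; rfl
      rw [h3]; simp
    apply Complex.ext
    · simpa using e1
    · simpa using e2
  have h1 := hconst w hw
  have h2 : Q w = circleAverage (fun ζ => ((ζ + w) / (ζ - w)) * ((f ζ).re : ℂ)) 0 1 := by
    rw [hQ]
    simp only
    congr 1
    ext ζ
    simp [herglotzRieszKernel_def]
  rw [← h2]
  have h3 : f w = Q w + (f 0 - Q 0) := by rw [← h1]; ring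
  rw [h3, h0]
  congr 1
  apply Complex.ext <;> simp

/-- Harnack's lower bound. -/
lemma harnack_lower {f : ℂ → ℂ} {R : ℝ} (hR : 1 < R) (hf : DifferentiableOn ℂ f (ball 0 R))
    (hpos : ∀ z ∈ sphere (0:ℂ) 1, 0 ≤ (f z).re) {w : ℂ} (hw : w ∈ ball (0:ℂ) 1) :
    (1 - ‖w‖) / (1 + ‖w‖) * (f 0).re ≤ (f w).re := by
  have h0 : (f 0).re = circleAverage (fun ζ => (f ζ).re) 0 1 := by
    rw [← re_poisson hR hf (mem_ball_self one_pos)]
    apply circleAverage_congr_sphere
    intro ζ hζ
    have hne : ζ ≠ 0 := by
      rintro rfl; simp at hζ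
    simp [div_self hne]
  have hint := re_circleIntegrable hR hf
  rw [← re_poisson hR hf hw, h0, ← smul_eq_mul, ← circleAverage_fun_smul]
  apply circleAverage_mono
  · exact hint.const_smul
  · apply ContinuousOn.circleIntegrable'
    have h2 : ContinuousOn (fun z : ℂ => ((z + w) / (z - w)).re) (sphere 0 |1|) := by
      have := continuousOn_herglotzRieszKernel_sphere (c := 0) hw
      have h3 := Complex.continuous_re.comp_continuousOn this
      refine h3.congr ?_
      intro z hz
      simp [herglotzRieszKernel_def]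
    have hcont : ContinuousOn f (sphere 0 |1|) := by
      rw [abs_one]; exact hf.continuousOn.mono (sphere_subset_ball hR)
    exact h2.mul (Complex.continuous_re.comp_continuousOn hcont)
  · intro ζ hζ
    rw [abs_one] at hζ
    have h1 := le_re_herglotzRieszKernel (c := 0) hζ hw
    simp only [sub_zero] at h1
    simp only [smul_eq_mul]
    exact mul_le_mul_of_nonneg_right h1 (hpos ζ hζ)

/-- Caratheodory's bound for the first coefficient. -/
lemma coeff_bound {f : ℂ → ℂ} {R : ℝ} (hR : 1 < R) (hf : DifferentiableOn ℂ f (ball 0 R))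
    (hpos : ∀ z ∈ sphere (0:ℂ) 1, 0 ≤ (f z).re) :
    ‖deriv f 0‖ ≤ 2 * (f 0).re := by
  have hint := re_circleIntegrable hR hf
  have hint' := ofReal_re_circleIntegrable hR hf
  have h0 : (f 0).re = circleAverage (fun ζ => (f ζ).re) 0 1 := by
    rw [← re_poisson hR hf (mem_ball_self one_pos)]
    apply circleAverage_congr_sphere
    intro ζ hζ
    have hne : ζ ≠ 0 := by
      rintro rfl; simp at hζ
    simp [div_self hne]
  have hd := hasDerivAt_circleAverage_herglotzRieszKernel_smul hint' (mem_ball_self (x := (0:ℂ)) one_pos)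
  have hd2 : HasDerivAt f (circleAverage (fun ζ ↦ (2 * ζ / (ζ - 0) ^ 2) • (((f ζ).re : ℂ))) 0 1) 0 := by
    have h1 := hd.add_const (I * ((f 0).im : ℂ))
    refine h1.congr_of_eventuallyEq ?_
    filter_upwards [isOpen_ball.mem_nhds (mem_ball_self (x := (0:ℂ)) one_pos)] with w hw
    rw [herglotz hR hf hw]
    simp [herglotzRieszKernel_def]
  rw [hd2.deriv, h0]
  rw [circleAverage_def, circleAverage_def]
  rw [norm_smul, Real.norm_of_nonneg (by positivity), smul_eq_mul]
  have h2 : ‖∫ θ in (0:ℝ)..2 * π, (2 * circleMap 0 1 θ / (circleMap 0 1 θ - 0) ^ 2) •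
      (((f (circleMap 0 1 θ)).re : ℂ))‖ ≤ ∫ θ in (0:ℝ)..2 * π, 2 * (f (circleMap 0 1 θ)).re := by
    apply intervalIntegral.norm_integral_le_of_norm_le (by positivity)
    · filter_upwards with θ _
      have hmem : circleMap 0 1 θ ∈ sphere (0:ℂ) 1 := circleMap_mem_sphere 0 zero_le_one θ
      have hn : ‖circleMap 0 1 θ‖ = 1 := by simpa using hmem
      rw [norm_smul, norm_div, norm_mul, norm_pow, sub_zero, hn, Complex.norm_real,
        Real.norm_of_nonneg (hpos _ hmem)]
      norm_num
    · exact (hint.const_smul (a := (2:ℝ)))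
  calc (2 * π)⁻¹ * _ ≤ (2 * π)⁻¹ * ∫ θ in (0:ℝ)..2 * π, 2 * (f (circleMap 0 1 θ)).re := by
        apply mul_le_mul_of_nonneg_left h2 (by positivity)
    _ = 2 * ((2 * π)⁻¹ * ∫ θ in (0:ℝ)..2 * π, (f (circleMap 0 1 θ)).re) := by
        rw [intervalIntegral.integral_const_mul]; ring

end

end Pool.Agent.Lib.MP_7682a8_an.H10
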