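import Mathlib

/-!
Cauchy's theorem on a circular sector, in the form: the difference of two radial integrals is the
integral over the arc.
-/

set_option autoImplicit false

open Metric MeasureTheory Set

namespace Pool.Agent.Lib.MP_7682a8_an.H10

noncomputable section

lemma hasDerivAt_cexp_mul_I (θ : ℝ) :
    HasDerivAt (fun t : ℝ => Complex.exp (t * Complex.I)) (Complex.I * Complex.exp (θ * Complex.I)) θ := by
  have h1 : HasDerivAt (fun t : ℝ => (t:ℂ) * Complex.I) Complex.I θ := by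
    simpa using (Complex.ofRealCLM.hasDerivAt (x := θ)).mul_const Complex.I
  have h2 := h1.cexp
  rw [mul_comm] at h2
  exact h2

lemma hasDerivAt_comp_real {F : ℂ → ℂ} {F' : ℂ} {c : ℝ → ℂ} {c' : ℂ} {t : ℝ}
    (hF : HasDerivAt F F' (c t)) (hc : HasDerivAt c c' t) :
    HasDerivAt (fun s => F (c s)) (F' * c') t := HasDerivAt.comp t hF hc

/-- theta derivative of the integrand -/
lemma sector_theta {F : ℂ → ℂ} {F' : ℂ} {μ θ : ℝ}
    (hF : HasDerivAt F F' ((μ:ℂ) * Complex.exp (θ * Complex.I))) :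
    HasDerivAt (fun t : ℝ => F ((μ:ℂ) * Complex.exp (t * Complex.I)) * Complex.exp (t * Complex.I))
      (Complex.I * Complex.exp (θ * Complex.I) * (F ((μ:ℂ) * Complex.exp (θ * Complex.I)) +
        ((μ:ℂ) * Complex.exp (θ * Complex.I)) * F')) θ := by
  have h1 : HasDerivAt (fun t : ℝ => (μ:ℂ) * Complex.exp (t * Complex.I))
      ((μ:ℂ) * (Complex.I * Complex.exp (θ * Complex.I))) θ :=
    (hasDerivAt_cexp_mul_I θ).const_mul _
  have h2 := hasDerivAt_comp_real (c := fun t : ℝ => (μ:ℂ) * Complex.exp (t * Complex.I)) hF h1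
  have h3 := h2.mul (hasDerivAt_cexp_mul_I θ)
  refine h3.congr_deriv ?_
  ring

/-- radial derivative -/
lemma sector_radial {F : ℂ → ℂ} {F' : ℂ} {e : ℂ} {μ : ℝ}
    (hF : HasDerivAt F F' ((μ:ℂ) * e)) :
    HasDerivAt (fun t : ℝ => Complex.I * ((t:ℂ) * e) * F ((t:ℂ) * e))
      (Complex.I * e * (F ((μ:ℂ) * e) + ((μ:ℂ) * e) * F')) μ := by
  have h1 : HasDerivAt (fun t : ℝ => (t:ℂ) * e) e μ := by
    simpa using (Complex.ofRealCLM.hasDerivAt (x := μ)).mul_const e
  have h2 := hasDerivAt_comp_real (c := fun t : ℝ => (t:ℂ) * e) hF h1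
  have h3 := (h1.const_mul Complex.I).mul h2
  refine h3.congr_deriv ?_
  ring

/-- Cauchy's theorem for a sector. -/
lemma sector {F : ℂ → ℂ} {U : Set ℂ} (hU : IsOpen U) (hF : DifferentiableOn ℂ F U) {a b : ℝ}
    (hsub : ∀ μ ∈ Icc (0:ℝ) 1, ∀ θ ∈ uIcc a b, (μ:ℂ) * Complex.exp (θ * Complex.I) ∈ U) :
    (∫ μ in (0:ℝ)..1, F ((μ:ℂ) * Complex.exp (b * Complex.I)) * Complex.exp (b * Complex.I))
      - (∫ μ in (0:ℝ)..1, F ((μ:ℂ) * Complex.exp (a * Complex.I)) * Complex.exp (a * Complex.I))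
      = ∫ θ in a..b, Complex.I * Complex.exp (θ * Complex.I) * F (Complex.exp (θ * Complex.I)) := by
  have hF' : DifferentiableOn ℂ (deriv F) U := hF.deriv hU
  have hderF : ∀ z ∈ U, HasDerivAt F (deriv F z) z := fun z hz =>
    (hF.differentiableAt (hU.mem_nhds hz)).hasDerivAt
  obtain ⟨D, hD⟩ : ∃ D : ℝ → ℝ → ℂ, ∀ μ θ, D μ θ = Complex.I * Complex.exp (θ * Complex.I) *
    (F ((μ:ℂ) * Complex.exp (θ * Complex.I)) +
      ((μ:ℂ) * Complex.exp (θ * Complex.I)) * deriv F ((μ:ℂ) * Complex.exp (θ * Complex.I))) :=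
    ⟨_, fun _ _ => rfl⟩
  have hz : ContinuousOn (fun x : ℝ × ℝ => (x.1 : ℂ) * Complex.exp (x.2 * Complex.I))
      (Icc (0:ℝ) 1 ×ˢ uIcc a b) := by
    fun_prop
  have hmap : MapsTo (fun x : ℝ × ℝ => (x.1 : ℂ) * Complex.exp (x.2 * Complex.I))
      (Icc (0:ℝ) 1 ×ˢ uIcc a b) U := by
    rintro ⟨μ, θ⟩ ⟨h1, h2⟩
    exact hsub μ h1 θ h2
  have hDcont : ContinuousOn (fun x : ℝ × ℝ => D x.1 x.2) (Icc (0:ℝ) 1 ×ˢ uIcc a b) := by
    have h1 := hF.continuousOn.comp hz hmap
    have h2 := hF'.continuousOn.comp hz hmap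
    have h3 : ContinuousOn (fun x : ℝ × ℝ => Complex.I * Complex.exp (x.2 * Complex.I))
        (Icc (0:ℝ) 1 ×ˢ uIcc a b) := by
      fun_prop
    have h4 := h3.mul (h1.add (hz.mul h2))
    refine h4.congr ?_
    intro x hx
    simp only [hD]
    rfl
  -- theta derivative
  have hA : ∀ μ ∈ Icc (0:ℝ) 1, ∫ θ in a..b, D μ θ =
      F ((μ:ℂ) * Complex.exp (b * Complex.I)) * Complex.exp (b * Complex.I)
        - F ((μ:ℂ) * Complex.exp (a * Complex.I)) * Complex.exp (a * Complex.I) := by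
    intro μ hμ
    apply intervalIntegral.integral_eq_sub_of_hasDerivAt
      (f := fun t : ℝ => F ((μ:ℂ) * Complex.exp (t * Complex.I)) * Complex.exp (t * Complex.I))
    · intro θ hθ
      have := sector_theta (hderF _ (hsub μ hμ θ hθ))
      rw [hD]
      exact this
    · apply ContinuousOn.intervalIntegrable
      have : ContinuousOn (fun θ : ℝ => (μ, θ)) (uIcc a b) := by fun_prop
      exact hDcont.comp this (fun θ hθ => ⟨hμ, hθ⟩)
  have hB : ∀ θ ∈ uIcc a b, ∫ μ in (0:ℝ)..1, D μ θ =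
      Complex.I * Complex.exp (θ * Complex.I) * F (Complex.exp (θ * Complex.I)) := by
    intro θ hθ
    have hcont : ContinuousOn (fun μ : ℝ => D μ θ) (uIcc 0 1) := by
      rw [uIcc_of_le zero_le_one]
      have : ContinuousOn (fun μ : ℝ => (μ, θ)) (Icc 0 1) := by fun_prop
      exact hDcont.comp this (fun μ hμ => ⟨hμ, hθ⟩)
    have key := intervalIntegral.integral_eq_sub_of_hasDerivAt (a := 0) (b := 1)
      (f := fun t : ℝ => Complex.I * ((t:ℂ) * Complex.exp (θ * Complex.I)) *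
        F ((t:ℂ) * Complex.exp (θ * Complex.I)))
      (f' := fun μ : ℝ => D μ θ) (by
        intro μ hμ
        rw [uIcc_of_le zero_le_one] at hμ
        have := sector_radial (hderF _ (hsub μ hμ θ hθ))
        rw [hD]
        exact this) hcont.intervalIntegrable
    rw [key]
    simp
  have hint : IntegrableOn D.uncurry (uIoc 0 1 ×ˢ uIoc a b) := by
    have h1 : IntegrableOn (fun x : ℝ × ℝ => D x.1 x.2) (Icc (0:ℝ) 1 ×ˢ uIcc a b) :=
      hDcont.integrableOn_compact (isCompact_Icc.prod isCompact_uIcc)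
    apply h1.mono_set
    apply prod_mono
    · rw [uIoc_of_le zero_le_one]; exact Ioc_subset_Icc_self
    · exact uIoc_subset_uIcc
  have hswap := intervalIntegral_intervalIntegral_swap (F := D) (a := 0) (b := 1) (c := a) (d := b) hint
  have hL : ∫ μ in (0:ℝ)..1, ∫ θ in a..b, D μ θ =
      ∫ μ in (0:ℝ)..1, (F ((μ:ℂ) * Complex.exp (b * Complex.I)) * Complex.exp (b * Complex.I)
        - F ((μ:ℂ) * Complex.exp (a * Complex.I)) * Complex.exp (a * Complex.I)) := by
    apply intervalIntegral.integral_congr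
    intro μ hμ
    rw [uIcc_of_le zero_le_one] at hμ
    exact hA μ hμ
  have hR : ∫ θ in a..b, ∫ μ in (0:ℝ)..1, D μ θ =
      ∫ θ in a..b, Complex.I * Complex.exp (θ * Complex.I) * F (Complex.exp (θ * Complex.I)) := by
    apply intervalIntegral.integral_congr
    intro θ hθ
    exact hB θ hθ
  rw [← hR, ← hswap, hL]
  have hci : ∀ c ∈ uIcc a b, IntervalIntegrable
      (fun μ : ℝ => F ((μ:ℂ) * Complex.exp (c * Complex.I)) * Complex.exp (c * Complex.I))
      volume 0 1 := by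
    intro c hc
    apply ContinuousOn.intervalIntegrable
    rw [uIcc_of_le zero_le_one]
    have hz : ContinuousOn (fun x : ℝ => (x : ℂ) * Complex.exp (c * Complex.I)) (Icc (0:ℝ) 1) := by
      fun_prop
    have h1 := hF.continuousOn.comp hz (fun μ hμ => hsub μ hμ c hc)
    exact h1.mul continuousOn_const
  rw [intervalIntegral.integral_sub (hci b right_mem_uIcc) (hci a left_mem_uIcc)]

end

end Pool.Agent.Lib.MP_7682a8_an.H10
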