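import Mathlib
import Pool.Agent.Lib.MP_7682a8_an.H10.Sector
import Pool.Agent.Lib.MP_7682a8_an.H10.Herglotz

/-!
The key kernel estimate.
-/

set_option autoImplicit false

open Metric MeasureTheory Set

namespace Pool.Agent.Lib.MP_7682a8_an.H10

noncomputable section

lemma exp_add_exp (σ θ : ℝ) :
    Complex.exp (σ * Complex.I) + Complex.exp (θ * Complex.I) =
      Complex.exp (((σ + θ) / 2 : ℝ) * Complex.I) * (2 * ((Real.cos ((σ - θ) / 2) : ℝ) : ℂ)) := by
  rw [Complex.ofReal_cos, Complex.two_cos, mul_add, ← Complex.exp_add, ← Complex.exp_add]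
  congr 2
  · push_cast; ring
  · push_cast; ring

lemma exp_sub_exp (σ θ : ℝ) :
    Complex.exp (σ * Complex.I) - Complex.exp (θ * Complex.I) =
      Complex.exp (((σ + θ) / 2 : ℝ) * Complex.I) *
        (2 * Complex.I * ((Real.sin ((σ - θ) / 2) : ℝ) : ℂ)) := by
  have h1 : 2 * Complex.I * ((Real.sin ((σ - θ) / 2) : ℝ) : ℂ) =
      Complex.exp (((σ - θ) / 2 : ℝ) * Complex.I) - Complex.exp (-((σ - θ) / 2 : ℝ) * Complex.I) := by
    rw [Complex.ofReal_sin, Complex.sin]
    have : Complex.I * Complex.I = -1 := Complex.I_mul_I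
    linear_combination (Complex.exp (-((σ - θ) / 2 : ℝ) * Complex.I) -
      Complex.exp (((σ - θ) / 2 : ℝ) * Complex.I)) * this
  rw [h1, mul_sub, ← Complex.exp_add, ← Complex.exp_add]
  congr 2
  · push_cast; ring
  · push_cast; ring

lemma half_mem {σ θ : ℝ} (h0 : 0 < σ) (h1 : σ < 2 * Real.pi) (hθ : θ ∈ uIcc (σ - Real.pi) 0) :
    0 < Real.sin ((σ - θ) / 2) := by
  have hpi := Real.pi_pos
  apply Real.sin_pos_of_pos_of_lt_pi
  · rcases le_total (σ - Real.pi) 0 with h | h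
    · rw [uIcc_of_le h] at hθ; linarith [hθ.2]
    · rw [uIcc_of_ge h] at hθ; linarith [hθ.2]
  · rcases le_total (σ - Real.pi) 0 with h | h
    · rw [uIcc_of_le h] at hθ; linarith [hθ.1]
    · rw [uIcc_of_ge h] at hθ; linarith [hθ.1]

lemma arc_factor {σ θ : ℝ} (hs : Real.sin ((σ - θ) / 2) ≠ 0) :
    Complex.I * Complex.exp (θ * Complex.I) *
      (2 * Complex.exp (σ * Complex.I) *
        (Complex.exp (σ * Complex.I) + Complex.exp (θ * Complex.I)) /
        (Complex.exp (σ * Complex.I) - Complex.exp (θ * Complex.I)) ^ 3) =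
      ((-(Real.cos ((σ - θ) / 2)) / (2 * Real.sin ((σ - θ) / 2) ^ 3) : ℝ) : ℂ) := by
  have hE : Complex.exp (σ * Complex.I) * Complex.exp (θ * Complex.I) =
      Complex.exp (((σ + θ) / 2 : ℝ) * Complex.I) ^ 2 := by
    rw [← Complex.exp_add, ← Complex.exp_nat_mul]
    congr 1
    push_cast; ring
  have hE0 : Complex.exp (((σ + θ) / 2 : ℝ) * Complex.I) ≠ 0 := Complex.exp_ne_zero _
  rw [exp_add_exp, exp_sub_exp]
  set E := Complex.exp (((σ + θ) / 2 : ℝ) * Complex.I) with hEdef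
  set c : ℝ := Real.cos ((σ - θ) / 2)
  set s : ℝ := Real.sin ((σ - θ) / 2)
  have hs' : (s : ℂ) ≠ 0 := by exact_mod_cast hs
  have hI : Complex.I ^ 3 = -Complex.I := by
    rw [pow_succ, Complex.I_sq]; ring
  have h1 : (E * (2 * Complex.I * (s:ℂ))) ^ 3 = -(8 * Complex.I * E ^ 3 * (s:ℂ) ^ 3) := by
    rw [mul_pow, mul_pow, mul_pow, hI]; ring
  rw [h1]
  have h2 : Complex.I * Complex.exp (θ * Complex.I) *
      (2 * Complex.exp (σ * Complex.I) * (E * (2 * (c:ℂ))) / -(8 * Complex.I * E ^ 3 * (s:ℂ) ^ 3)) =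
      (4 * Complex.I * (Complex.exp (σ * Complex.I) * Complex.exp (θ * Complex.I)) * E * c) /
        -(8 * Complex.I * E ^ 3 * (s:ℂ) ^ 3) := by ring
  rw [h2, hE]
  push_cast
  have hI0 : Complex.I ≠ 0 := Complex.I_ne_zero
  field_simp
  ring

lemma radial_integral : ∫ μ in (0:ℝ)..1, 2 * (1 - μ) / (1 + μ) ^ 3 * ((1 - μ) / (1 + μ)) = 1 / 3 := by
  have key := intervalIntegral.integral_eq_sub_of_hasDerivAt (a := 0) (b := 1)
      (f := fun μ : ℝ => -((1 - μ) / (1 + μ)) ^ 3 / 3)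
      (f' := fun μ : ℝ => 2 * (1 - μ) / (1 + μ) ^ 3 * ((1 - μ) / (1 + μ))) (by
        intro μ hμ
        rw [uIcc_of_le zero_le_one] at hμ
        have h0 : (1 + μ) ≠ 0 := by linarith [hμ.1]
        have h1 : HasDerivAt (fun t : ℝ => (1 - t) / (1 + t)) (((-1) * (1 + μ) - (1 - μ) * 1) / (1 + μ) ^ 2) μ := by
          have a1 : HasDerivAt (fun t : ℝ => 1 - t) (-1) μ := by
            simpa using (hasDerivAt_id μ).const_sub 1
          have a2 : HasDerivAt (fun t : ℝ => 1 + t) 1 μ := by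
            simpa using (hasDerivAt_id μ).const_add 1
          exact a1.div a2 h0
        have h2 := ((h1.pow 3).neg).div_const 3
        refine h2.congr_deriv ?_
        simp only [Nat.add_one_sub_one, Nat.cast_ofNat]
        field_simp
        ring) (by
        apply ContinuousOn.intervalIntegrable
        rw [uIcc_of_le zero_le_one]
        apply ContinuousOn.mul
        · apply ContinuousOn.div (by fun_prop) (by fun_prop)
          intro x hx
          have : 0 < 1 + x := by linarith [hx.1]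
          positivity
        · apply ContinuousOn.div (by fun_prop) (by fun_prop)
          intro x hx
          have : 0 < 1 + x := by linarith [hx.1]
          positivity)
  rw [key]
  norm_num


/-- The analytic function integrated in the key estimate. -/
def kF (ζ : ℂ) (G : ℂ → ℂ) (z : ℂ) : ℂ := 2 * ζ * (ζ + z) / (ζ - z) ^ 3 * G z

lemma kF_diff {G : ℂ → ℂ} {R : ℝ} (hG : DifferentiableOn ℂ G (ball 0 R)) (ζ : ℂ) :
    DifferentiableOn ℂ (kF ζ G) (ball 0 R ∩ {ζ}ᶜ) := by
  unfold kF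
  apply DifferentiableOn.mul
  · apply DifferentiableOn.div (by fun_prop) (by fun_prop)
    rintro z ⟨_, hz⟩
    apply pow_ne_zero
    rw [sub_ne_zero]
    exact fun h => hz h.symm
  · exact hG.mono inter_subset_left

lemma sector_mem {R : ℝ} (hR : 1 < R) {σ : ℝ} (h0 : 0 < σ) (h1 : σ < 2 * Real.pi) :
    ∀ μ ∈ Icc (0:ℝ) 1, ∀ θ ∈ uIcc (σ - Real.pi) 0,
      (μ:ℂ) * Complex.exp (θ * Complex.I) ∈ ball (0:ℂ) R ∩ {Complex.exp (σ * Complex.I)}ᶜ := by
  intro μ hμ θ hθ
  have hn : ‖(μ:ℂ) * Complex.exp (θ * Complex.I)‖ = μ := by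
    rw [norm_mul, Complex.norm_exp_ofReal_mul_I, mul_one, Complex.norm_real,
      Real.norm_of_nonneg hμ.1]
  constructor
  · rw [mem_ball_zero_iff, hn]; linarith [hμ.2]
  · intro h
    rw [mem_singleton_iff] at h
    have hμ1 : μ = 1 := by rw [← hn, h, Complex.norm_exp_ofReal_mul_I]
    rw [hμ1] at h
    have h2 := exp_sub_exp σ θ
    have h3 : Complex.exp (σ * Complex.I) - Complex.exp (θ * Complex.I) = 0 := by
      rw [← h]; simp
    rw [h3] at h2
    have h4 : Complex.exp (((σ + θ) / 2 : ℝ) * Complex.I) *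
        (2 * Complex.I * ((Real.sin ((σ - θ) / 2) : ℝ) : ℂ)) ≠ 0 := by
      apply mul_ne_zero (Complex.exp_ne_zero _)
      apply mul_ne_zero (mul_ne_zero two_ne_zero Complex.I_ne_zero)
      exact_mod_cast (half_mem h0 h1 hθ).ne'
    exact h4 h2.symm

/-- the arc contributes nonpositively -/
lemma arc_nonpos {G : ℂ → ℂ} {R : ℝ} (hR : 1 < R) (hG : DifferentiableOn ℂ G (ball 0 R))
    (hpos : ∀ z ∈ sphere (0:ℂ) 1, 0 ≤ (G z).re) {σ : ℝ} (h0 : 0 < σ) (h1 : σ < 2 * Real.pi) :
    (∫ θ in (σ - Real.pi)..0, Complex.I * Complex.exp (θ * Complex.I) *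
      kF (Complex.exp (σ * Complex.I)) G (Complex.exp (θ * Complex.I))).re ≤ 0 := by
  have hmem : ∀ θ : ℝ, Complex.exp (θ * Complex.I) ∈ sphere (0:ℂ) 1 := by
    intro θ; simp [Complex.norm_exp_ofReal_mul_I]
  have hcongr : ∫ θ in (σ - Real.pi)..0, Complex.I * Complex.exp (θ * Complex.I) *
      kF (Complex.exp (σ * Complex.I)) G (Complex.exp (θ * Complex.I)) =
      ∫ θ in (σ - Real.pi)..0,
        ((-(Real.cos ((σ - θ) / 2)) / (2 * Real.sin ((σ - θ) / 2) ^ 3) : ℝ) : ℂ) *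
          G (Complex.exp (θ * Complex.I)) := by
    apply intervalIntegral.integral_congr
    intro θ hθ
    simp only
    rw [← arc_factor (half_mem h0 h1 hθ).ne']
    unfold kF
    ring
  have hcontG : ContinuousOn (fun θ : ℝ => G (Complex.exp (θ * Complex.I))) (uIcc (σ - Real.pi) 0) := by
    have h2 : ContinuousOn (fun θ : ℝ => Complex.exp (θ * Complex.I)) (uIcc (σ - Real.pi) 0) := by
      fun_prop
    exact hG.continuousOn.comp h2 (fun θ _ => sphere_subset_ball hR (hmem θ))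
  have hcontk : ContinuousOn (fun θ : ℝ => -(Real.cos ((σ - θ) / 2)) / (2 * Real.sin ((σ - θ) / 2) ^ 3))
      (uIcc (σ - Real.pi) 0) := by
    apply ContinuousOn.div (by fun_prop) (by fun_prop)
    intro θ hθ
    have := half_mem h0 h1 hθ
    positivity
  have hint : IntervalIntegrable (fun θ : ℝ =>
        ((-(Real.cos ((σ - θ) / 2)) / (2 * Real.sin ((σ - θ) / 2) ^ 3) : ℝ) : ℂ) *
          G (Complex.exp (θ * Complex.I))) volume (σ - Real.pi) 0 := by
    apply ContinuousOn.intervalIntegrable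
    exact (Complex.continuous_ofReal.comp_continuousOn hcontk).mul hcontG
  have hre := Complex.reCLM.intervalIntegral_comp_comm hint
  rw [hcongr, ← Complex.reCLM_apply, ← hre]
  simp only [Complex.reCLM_apply, Complex.re_ofReal_mul]
  rcases le_total (σ - Real.pi) 0 with h | h
  · have : 0 ≤ ∫ θ in (σ - Real.pi)..0, -(-(Real.cos ((σ - θ) / 2)) / (2 * Real.sin ((σ - θ) / 2) ^ 3) *
        (G (Complex.exp (θ * Complex.I))).re) := by
      apply intervalIntegral.integral_nonneg h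
      intro θ hθ
      have hs := half_mem h0 h1 (by rw [uIcc_of_le h]; exact hθ)
      have hc : 0 ≤ Real.cos ((σ - θ) / 2) := by
        apply Real.cos_nonneg_of_neg_pi_div_two_le_of_le
        · linarith [hθ.2, Real.pi_pos]
        · linarith [hθ.1]
      have hg := hpos _ (hmem θ)
      have : -(-(Real.cos ((σ - θ) / 2)) / (2 * Real.sin ((σ - θ) / 2) ^ 3) *
        (G (Complex.exp (θ * Complex.I))).re) = (Real.cos ((σ - θ) / 2)) / (2 * Real.sin ((σ - θ) / 2) ^ 3) *
        (G (Complex.exp (θ * Complex.I))).re := by ring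
      rw [this]
      positivity
    rw [intervalIntegral.integral_neg] at this
    linarith
  · rw [intervalIntegral.integral_symm]
    have : 0 ≤ ∫ θ in (0:ℝ)..(σ - Real.pi), (-(Real.cos ((σ - θ) / 2)) / (2 * Real.sin ((σ - θ) / 2) ^ 3) *
        (G (Complex.exp (θ * Complex.I))).re) := by
      apply intervalIntegral.integral_nonneg h
      intro θ hθ
      have hs := half_mem h0 h1 (by rw [uIcc_of_ge h]; exact hθ)
      have hc : Real.cos ((σ - θ) / 2) ≤ 0 := by
        apply Real.cos_nonpos_of_pi_div_two_le_of_le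
        · linarith [hθ.2]
        · linarith [hθ.1, Real.pi_pos]
      have hg := hpos _ (hmem θ)
      have hc' : 0 ≤ -Real.cos ((σ - θ) / 2) := by linarith
      positivity
    linarith

/-- the radial segment -/
lemma radial_le {G : ℂ → ℂ} {R : ℝ} (hR : 1 < R) (hG : DifferentiableOn ℂ G (ball 0 R))
    (hpos : ∀ z ∈ sphere (0:ℂ) 1, 0 ≤ (G z).re) {ζ : ℂ} (hζ : ‖ζ‖ = 1) :
    (∫ μ in (0:ℝ)..1, kF ζ G ((μ:ℂ) * (-ζ)) * (-ζ)).re ≤ -(1 / 3) * (G 0).re := by
  have hζ0 : ζ ≠ 0 := by rintro rfl; simp at hζ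
  have hnorm : ∀ μ ∈ Icc (0:ℝ) 1, ‖(μ:ℂ) * (-ζ)‖ = μ := by
    intro μ hμ
    rw [norm_mul, norm_neg, hζ, mul_one, Complex.norm_real, Real.norm_of_nonneg hμ.1]
  have hcongr : ∫ μ in (0:ℝ)..1, kF ζ G ((μ:ℂ) * (-ζ)) * (-ζ) =
      ∫ μ in (0:ℝ)..1, ((-(2 * (1 - μ) / (1 + μ) ^ 3) : ℝ) : ℂ) * G ((μ:ℂ) * (-ζ)) := by
    apply intervalIntegral.integral_congr
    intro μ hμ
    rw [uIcc_of_le zero_le_one] at hμ
    simp only
    unfold kF
    have h1 : (1 + (μ:ℂ)) ≠ 0 := by
      have : (1 + μ) ≠ 0 := by linarith [hμ.1]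
      exact_mod_cast this
    have h2 : ζ - (μ:ℂ) * (-ζ) = ζ * (1 + μ) := by ring
    have h3 : ζ + (μ:ℂ) * (-ζ) = ζ * (1 - μ) := by ring
    rw [h2, h3]
    push_cast
    field_simp
  have hcontG : ContinuousOn (fun μ : ℝ => G ((μ:ℂ) * (-ζ))) (uIcc 0 1) := by
    rw [uIcc_of_le zero_le_one]
    have h2 : ContinuousOn (fun μ : ℝ => (μ:ℂ) * (-ζ)) (Icc 0 1) := by fun_prop
    refine hG.continuousOn.comp h2 (fun μ hμ => ?_)
    rw [mem_ball_zero_iff, hnorm μ hμ]; linarith [hμ.2]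
  have hcontk : ContinuousOn (fun μ : ℝ => -(2 * (1 - μ) / (1 + μ) ^ 3)) (uIcc 0 1) := by
    rw [uIcc_of_le zero_le_one]
    apply ContinuousOn.neg
    apply ContinuousOn.div (by fun_prop) (by fun_prop)
    intro x hx
    have : 0 < 1 + x := by linarith [hx.1]
    positivity
  have hint : IntervalIntegrable (fun μ : ℝ =>
        ((-(2 * (1 - μ) / (1 + μ) ^ 3) : ℝ) : ℂ) * G ((μ:ℂ) * (-ζ))) volume 0 1 := by
    apply ContinuousOn.intervalIntegrable
    exact (Complex.continuous_ofReal.comp_continuousOn hcontk).mul hcontG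
  have hre := Complex.reCLM.intervalIntegral_comp_comm hint
  rw [hcongr, ← Complex.reCLM_apply, ← hre]
  simp only [Complex.reCLM_apply, Complex.re_ofReal_mul]
  have hle : ∫ μ in (0:ℝ)..1, (2 * (1 - μ) / (1 + μ) ^ 3 * ((1 - μ) / (1 + μ))) * (G 0).re ≤
      ∫ μ in (0:ℝ)..1, (2 * (1 - μ) / (1 + μ) ^ 3) * (G ((μ:ℂ) * (-ζ))).re := by
    apply intervalIntegral.integral_mono_on zero_le_one
    · apply ContinuousOn.intervalIntegrable
      rw [uIcc_of_le zero_le_one]
      apply ContinuousOn.mul _ continuousOn_const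
      apply ContinuousOn.mul
      · apply ContinuousOn.div (by fun_prop) (by fun_prop)
        intro x hx
        have : 0 < 1 + x := by linarith [hx.1]
        positivity
      · apply ContinuousOn.div (by fun_prop) (by fun_prop)
        intro x hx
        have : 0 < 1 + x := by linarith [hx.1]
        positivity
    · apply ContinuousOn.intervalIntegrable
      apply ContinuousOn.mul
      · refine hcontk.neg.congr (fun x hx => ?_)
        simp
      · exact Complex.continuous_re.comp_continuousOn hcontG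
    · intro μ hμ
      rw [mul_assoc]
      have hpm : 0 < 1 + μ := by linarith [hμ.1]
      apply mul_le_mul_of_nonneg_left
      · rcases eq_or_lt_of_le hμ.2 with h | h
        · subst h
          simp only [sub_self, zero_div, zero_mul]
          apply hpos
          rw [mem_sphere_zero_iff_norm, hnorm 1 ⟨zero_le_one, le_rfl⟩]
        · have hb : (μ:ℂ) * (-ζ) ∈ ball (0:ℂ) 1 := by
            rw [mem_ball_zero_iff, hnorm μ hμ]; exact h
          have := harnack_lower hR hG hpos hb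
          rwa [hnorm μ hμ] at this
      · have : 0 ≤ 1 - μ := by linarith [hμ.2]
        positivity
  have h3 : ∫ μ in (0:ℝ)..1, (2 * (1 - μ) / (1 + μ) ^ 3 * ((1 - μ) / (1 + μ))) * (G 0).re =
      1 / 3 * (G 0).re := by
    rw [intervalIntegral.integral_mul_const, radial_integral]
  rw [h3] at hle
  have h4 : ∫ μ in (0:ℝ)..1, -(2 * (1 - μ) / (1 + μ) ^ 3) * (G ((μ:ℂ) * (-ζ))).re =
      - ∫ μ in (0:ℝ)..1, (2 * (1 - μ) / (1 + μ) ^ 3) * (G ((μ:ℂ) * (-ζ))).re := by
    rw [← intervalIntegral.integral_neg]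
    congr 1
    ext μ
    ring
  rw [h4]
  linarith

lemma kF_segment_le {G : ℂ → ℂ} {R : ℝ} (hR : 1 < R) (hG : DifferentiableOn ℂ G (ball 0 R))
    (hpos : ∀ z ∈ sphere (0:ℂ) 1, 0 ≤ (G z).re) {σ : ℝ} (h0 : 0 < σ) (h1 : σ < 2 * Real.pi) :
    (∫ s in (0:ℝ)..1, kF (Complex.exp (σ * Complex.I)) G (s:ℂ)).re ≤ -(1 / 3) * (G 0).re := by
  have hU : IsOpen (ball (0:ℂ) R ∩ {Complex.exp (σ * Complex.I)}ᶜ) :=
    isOpen_ball.inter isOpen_compl_singleton
  have hs := sector hU (kF_diff hG (Complex.exp (σ * Complex.I))) (a := σ - Real.pi) (b := 0)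
    (sector_mem hR h0 h1)
  have he0 : Complex.exp (((0:ℝ):ℂ) * Complex.I) = 1 := by simp
  have hea : Complex.exp (((σ - Real.pi : ℝ):ℂ) * Complex.I) = -Complex.exp (σ * Complex.I) := by
    push_cast
    rw [sub_mul, Complex.exp_sub, Complex.exp_pi_mul_I, div_neg, div_one]
  rw [he0, hea] at hs
  simp only [mul_one] at hs
  have hr := radial_le hR hG hpos (ζ := Complex.exp (σ * Complex.I)) (Complex.norm_exp_ofReal_mul_I σ)
  have ha := arc_nonpos hR hG hpos h0 h1
  have : ∫ s in (0:ℝ)..1, kF (Complex.exp (σ * Complex.I)) G (s:ℂ) =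
      (∫ μ in (0:ℝ)..1, kF (Complex.exp (σ * Complex.I)) G ((μ:ℂ) * (-Complex.exp (σ * Complex.I))) *
        (-Complex.exp (σ * Complex.I))) + ∫ θ in (σ - Real.pi)..0, Complex.I * Complex.exp (θ * Complex.I) *
      kF (Complex.exp (σ * Complex.I)) G (Complex.exp (θ * Complex.I)) := by
    rw [← hs]; ring
  rw [this, Complex.add_re]
  linarith

/-- derivative formula used for the integration by parts -/
lemma parts_deriv {G : ℂ → ℂ} {R : ℝ} (hG : DifferentiableOn ℂ G (ball 0 R)) {ζ : ℂ} {s : ℝ}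
    (hs : (s:ℂ) ∈ ball (0:ℂ) R) (hne : ζ - (s:ℂ) ≠ 0) :
    HasDerivAt (fun t : ℝ => (ζ + t) / (ζ - t) * (t * deriv G t) - 2 * ζ * t / (ζ - t) ^ 2 * G t)
      ((ζ + s) / (ζ - s) * (deriv G s + s * deriv (deriv G) s) - kF ζ G s) s := by
  have hG1 : HasDerivAt G (deriv G s) (s:ℂ) :=
    (hG.differentiableAt (isOpen_ball.mem_nhds hs)).hasDerivAt
  have hG2 : HasDerivAt (deriv G) (deriv (deriv G) s) (s:ℂ) :=
    ((hG.deriv isOpen_ball).differentiableAt (isOpen_ball.mem_nhds hs)).hasDerivAt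
  have hid : HasDerivAt (fun z : ℂ => z) 1 (s:ℂ) := hasDerivAt_id _
  have a1 : HasDerivAt (fun z : ℂ => ζ + z) 1 (s:ℂ) := hid.const_add ζ
  have a2 : HasDerivAt (fun z : ℂ => ζ - z) (-1) (s:ℂ) := hid.const_sub ζ
  have a3 := a1.div a2 hne
  have a4 := hid.mul hG2
  have a5 := a3.mul a4
  have a6 : HasDerivAt (fun z : ℂ => 2 * ζ * z) (2 * ζ * 1) (s:ℂ) := hid.const_mul (2 * ζ)
  have a7 : HasDerivAt (fun z : ℂ => (ζ - z) ^ 2) (2 * (ζ - s) * (-1)) (s:ℂ) := by
    have h := a2.pow 2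
    refine (h.congr_deriv ?_)
    simp
  have a8 := a6.div a7 (pow_ne_zero 2 hne)
  have a9 := a8.mul hG1
  have a10 := (a5.sub a9).comp_ofReal
  refine a10.congr_deriv ?_
  simp only [kF, Pi.div_apply, Pi.mul_apply]
  field_simp
  ring

lemma kernel_estimate {G : ℂ → ℂ} {R : ℝ} (hR : 1 < R) (hG : DifferentiableOn ℂ G (ball 0 R))
    (hpos : ∀ z ∈ sphere (0:ℂ) 1, 0 ≤ (G z).re) (hG1 : G 1 = 0) (him : (deriv G 1).im = 0)
    {σ : ℝ} (h0 : 0 < σ) (h1 : σ < 2 * Real.pi) :
    (∫ s in (0:ℝ)..1, (Complex.exp (σ * Complex.I) + s) / (Complex.exp (σ * Complex.I) - s) *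
      (deriv G s + s * deriv (deriv G) s)).re ≤ -(1 / 3) * (G 0).re := by
  have hseg := kF_segment_le hR hG hpos h0 h1
  have hζn : ‖Complex.exp (σ * Complex.I)‖ = 1 := Complex.norm_exp_ofReal_mul_I σ
  have hmemU : ∀ s ∈ Icc (0:ℝ) 1, (s:ℂ) ∈ ball (0:ℂ) R ∩ {Complex.exp (σ * Complex.I)}ᶜ := by
    intro s hs
    have := sector_mem hR h0 h1 s hs 0 right_mem_uIcc
    simpa using this
  set ζ := Complex.exp (σ * Complex.I) with hζ
  have hball : ∀ s ∈ Icc (0:ℝ) 1, (s:ℂ) ∈ ball (0:ℂ) R := fun s hs => (hmemU s hs).1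
  have hne : ∀ s ∈ Icc (0:ℝ) 1, ζ - (s:ℂ) ≠ 0 := by
    intro s hs h
    rw [sub_eq_zero] at h
    exact (hmemU s hs).2 (by rw [mem_singleton_iff]; exact h.symm)
  have hd1 := hG.deriv isOpen_ball
  have hd2 := hd1.deriv isOpen_ball
  have hcs : ContinuousOn (fun s : ℝ => (s:ℂ)) (Icc 0 1) := by fun_prop
  have hc0 : ContinuousOn (fun s : ℝ => G s) (Icc 0 1) := hG.continuousOn.comp hcs hball
  have hc1 : ContinuousOn (fun s : ℝ => deriv G s) (Icc 0 1) := hd1.continuousOn.comp hcs hball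
  have hc2 : ContinuousOn (fun s : ℝ => deriv (deriv G) s) (Icc 0 1) :=
    hd2.continuousOn.comp hcs hball
  have hA : ContinuousOn (fun s : ℝ => (ζ + s) / (ζ - s) * (deriv G s + s * deriv (deriv G) s))
      (Icc 0 1) := by
    apply ContinuousOn.mul
    · exact ContinuousOn.div (by fun_prop) (by fun_prop) hne
    · exact hc1.add (hcs.mul hc2)
  have hB : ContinuousOn (fun s : ℝ => kF ζ G (s:ℂ)) (Icc 0 1) := by
    unfold kF
    apply ContinuousOn.mul
    · exact ContinuousOn.div (by fun_prop) (by fun_prop) (fun s hs => pow_ne_zero 3 (hne s hs))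
    · exact hc0
  have key := intervalIntegral.integral_eq_sub_of_hasDerivAt (a := 0) (b := 1)
      (f := fun t : ℝ => (ζ + t) / (ζ - t) * (t * deriv G t) - 2 * ζ * t / (ζ - t) ^ 2 * G t)
      (f' := fun s : ℝ => (ζ + s) / (ζ - s) * (deriv G s + s * deriv (deriv G) s) - kF ζ G s) (by
        intro s hs
        rw [uIcc_of_le zero_le_one] at hs
        exact parts_deriv hG (hball s hs) (hne s hs)) (by
        apply ContinuousOn.intervalIntegrable
        rw [uIcc_of_le zero_le_one]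
        exact hA.sub hB)
  rw [intervalIntegral.integral_sub
    (by apply ContinuousOn.intervalIntegrable; rw [uIcc_of_le zero_le_one]; exact hA)
    (by apply ContinuousOn.intervalIntegrable; rw [uIcc_of_le zero_le_one]; exact hB)] at key
  simp only [Complex.ofReal_one, Complex.ofReal_zero, hG1, mul_zero, zero_mul, sub_zero,
    one_mul, zero_div] at key
  have hre : ((ζ + 1) / (ζ - 1) * deriv G 1).re = 0 := by
    have h3 : deriv G 1 = ((deriv G 1).re : ℂ) := by
      apply Complex.ext <;> simp [him]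
    rw [h3, Complex.re_mul_ofReal]
    have h4 : ((ζ + 1) / (ζ - 1)).re = 0 := by
      rw [Complex.div_re]
      have h5 : ζ.re * ζ.re + ζ.im * ζ.im = 1 := by
        have := Complex.normSq_eq_norm_sq ζ
        rw [hζn, Complex.normSq_apply] at this
        simpa using this
      rw [← add_div]
      have : (ζ + 1).re * (ζ - 1).re + (ζ + 1).im * (ζ - 1).im = 0 := by
        simp only [Complex.add_re, Complex.sub_re, Complex.add_im, Complex.sub_im, Complex.one_re,
          Complex.one_im]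
        linarith
      rw [this, zero_div]
    rw [h4, zero_mul]
  have : ∫ s in (0:ℝ)..1, (ζ + s) / (ζ - s) * (deriv G s + s * deriv (deriv G) s) =
      (ζ + 1) / (ζ - 1) * deriv G 1 + ∫ s in (0:ℝ)..1, kF ζ G (s:ℂ) := by
    rw [← key]; ring
  rw [this, Complex.add_re, hre, zero_add]
  exact hseg

end

end Pool.Agent.Lib.MP_7682a8_an.H10
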