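import Mathlib

/-!
The harmonic Koebe function: it is in the class `S_H^0` and omits the radial ray starting at `-1/6`.
-/

set_option autoImplicit false

open Metric Set

namespace Pool.Agent.Lib.MP_7682a8_an.H10

noncomputable section

/-- `v = (1+z)/(1-z)` -/
def kv (z : ℂ) : ℂ := (1 + z) / (1 - z)

/-- analytic part of the harmonic Koebe function -/
def kh (z : ℂ) : ℂ := (1 / 12) * (kv z ^ 3 - 1) + (1 / 8) * (kv z ^ 2 - 1)

/-- co-analytic part of the harmonic Koebe function -/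
def kg (z : ℂ) : ℂ := (1 / 12) * (kv z ^ 3 - 1) - (1 / 8) * (kv z ^ 2 - 1)

lemma one_sub_ne {z : ℂ} (hz : z ∈ ball (0:ℂ) 1) : 1 - z ≠ 0 := by
  intro h
  have h1 : z = 1 := by linear_combination -h
  rw [h1] at hz
  simp at hz

lemma kv_deriv {z : ℂ} (hz : z ∈ ball (0:ℂ) 1) : HasDerivAt kv (2 / (1 - z) ^ 2) z := by
  have a1 : HasDerivAt (fun z : ℂ => 1 + z) 1 z := (hasDerivAt_id z).const_add 1
  have a2 : HasDerivAt (fun z : ℂ => 1 - z) (-1) z := (hasDerivAt_id z).const_sub 1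
  have a3 := a1.div a2 (one_sub_ne hz)
  refine a3.congr_deriv ?_
  congr 1
  ring

lemma kh_deriv {z : ℂ} (hz : z ∈ ball (0:ℂ) 1) :
    HasDerivAt kh ((kv z * (2 / (1 - z) ^ 2) / 4) * (kv z + 1)) z := by
  have a1 := kv_deriv hz
  have a2 := ((((a1.pow 3).sub_const 1).const_mul (1 / 12 : ℂ))).add
    ((((a1.pow 2).sub_const 1).const_mul (1 / 8 : ℂ)))
  refine a2.congr_deriv ?_
  simp only [Nat.add_one_sub_one, Nat.cast_ofNat, pow_one]
  ring

lemma kg_deriv {z : ℂ} (hz : z ∈ ball (0:ℂ) 1) :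
    HasDerivAt kg ((kv z * (2 / (1 - z) ^ 2) / 4) * (kv z - 1)) z := by
  have a1 := kv_deriv hz
  have a2 := ((((a1.pow 3).sub_const 1).const_mul (1 / 12 : ℂ))).sub
    ((((a1.pow 2).sub_const 1).const_mul (1 / 8 : ℂ)))
  refine a2.congr_deriv ?_
  simp only [Nat.add_one_sub_one, Nat.cast_ofNat, pow_one]
  ring

lemma kv_re_pos {z : ℂ} (hz : z ∈ ball (0:ℂ) 1) : 0 < (kv z).re := by
  have hz' : ‖z‖ < 1 := by simpa using hz
  have hne := one_sub_ne hz
  rw [kv, Complex.div_re, ← add_div]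
  apply div_pos
  · have h1 : z.re * z.re + z.im * z.im < 1 := by
      have := Complex.normSq_eq_norm_sq z
      rw [Complex.normSq_apply] at this
      rw [this]
      nlinarith [norm_nonneg z]
    simp only [Complex.add_re, Complex.sub_re, Complex.add_im, Complex.sub_im, Complex.one_re,
      Complex.one_im]
    nlinarith
  · exact Complex.normSq_pos.mpr hne

lemma kf_re (z : ℂ) : (kh z + starRingEnd ℂ (kg z)).re = ((kv z ^ 3).re - 1) / 6 := by
  simp only [kh, kg, Complex.add_re, Complex.conj_re, Complex.sub_re]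
  have e1 : ((1 / 12 : ℂ) * (kv z ^ 3 - 1)).re = (1 / 12) * ((kv z ^ 3).re - 1) := by
    have : (1 / 12 : ℂ) = ((1 / 12 : ℝ) : ℂ) := by push_cast; ring
    rw [this, Complex.re_ofReal_mul, Complex.sub_re, Complex.one_re]
  rw [e1]
  ring

lemma kf_im (z : ℂ) : (kh z + starRingEnd ℂ (kg z)).im = (kv z ^ 2).im / 4 := by
  simp only [kh, kg, Complex.add_im, Complex.conj_im, Complex.sub_im]
  have e1 : ((1 / 8 : ℂ) * (kv z ^ 2 - 1)).im = (1 / 8) * ((kv z ^ 2).im) := by
    have : (1 / 8 : ℂ) = ((1 / 8 : ℝ) : ℂ) := by push_cast; ring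
    rw [this, Complex.im_ofReal_mul, Complex.sub_im, Complex.one_im, sub_zero]
  rw [e1]
  ring

lemma sq_im (v : ℂ) : (v ^ 2).im = 2 * (v.re * v.im) := by
  rw [pow_two, Complex.mul_im]; ring

lemma cube_re (v : ℂ) : (v ^ 3).re = v.re ^ 3 - 3 * (v.re * v.im) * v.im := by
  rw [pow_succ, pow_two, Complex.mul_re, Complex.mul_re, Complex.mul_im]; ring

lemma kv_inj {z w : ℂ} (hz : z ∈ ball (0:ℂ) 1) (hw : w ∈ ball (0:ℂ) 1) (h : kv z = kv w) : z = w := by
  unfold kv at h
  rw [div_eq_div_iff (one_sub_ne hz) (one_sub_ne hw)] at h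
  have h2 : 2 * (z - w) = 0 := by linear_combination h
  have h3 : z - w = 0 := by
    rcases mul_eq_zero.mp h2 with h4 | h4
    · norm_num at h4
    · exact h4
  linear_combination h3

lemma kf_injOn : InjOn (fun z => kh z + starRingEnd ℂ (kg z)) (ball (0:ℂ) 1) := by
  intro z hz w hw h
  simp only at h
  have hre := congrArg Complex.re h
  have him := congrArg Complex.im h
  rw [kf_re, kf_re, cube_re, cube_re] at hre
  rw [kf_im, kf_im, sq_im, sq_im] at him
  have hs := kv_re_pos hz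
  have ht := kv_re_pos hw
  apply kv_inj hz hw
  set a := kv z
  set b := kv w
  have hk : a.re * a.im = b.re * b.im := by linarith
  have hc : a.re ^ 3 - 3 * (a.re * a.im) * a.im = b.re ^ 3 - 3 * (a.re * a.im) * b.im := by
    rw [hk] at hre ⊢; linarith
  have key : (a.re - b.re) * ((a.re ^ 2 + a.re * b.re + b.re ^ 2) * (a.re * b.re) +
      3 * (a.re * a.im) ^ 2) = 0 := by
    have e1 : a.re * b.re * a.im = b.re * (a.re * a.im) := by ring
    have e2 : a.re * b.re * b.im = a.re * (a.re * a.im) := by rw [hk]; ring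
    linear_combination (a.re * b.re) * hc + 3 * (a.re * a.im) * e1 - 3 * (a.re * a.im) * e2
  have hpos : 0 < (a.re ^ 2 + a.re * b.re + b.re ^ 2) * (a.re * b.re) + 3 * (a.re * a.im) ^ 2 := by
    positivity
  have h1 : a.re = b.re := by
    rcases mul_eq_zero.mp key with h4 | h4
    · linarith
    · exact absurd h4 hpos.ne'
  have h2 : a.im = b.im := by
    rw [h1] at hk
    exact mul_left_cancel₀ ht.ne' hk
  exact Complex.ext h1 h2

lemma kf_omits {t : ℝ} (ht : 1 ≤ t) {z : ℂ} (hz : z ∈ ball (0:ℂ) 1) :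
    kh z + starRingEnd ℂ (kg z) ≠ (t : ℂ) * (-(1 / 6)) := by
  intro h
  have hre := congrArg Complex.re h
  have him := congrArg Complex.im h
  rw [kf_re, cube_re, Complex.re_ofReal_mul] at hre
  rw [kf_im, sq_im, Complex.im_ofReal_mul] at him
  have e1 : (-(1 / 6) : ℂ).re = -(1 / 6) := by
    have : (-(1 / 6) : ℂ) = ((-(1 / 6) : ℝ) : ℂ) := by push_cast; ring
    rw [this, Complex.ofReal_re]
  have e2 : (-(1 / 6) : ℂ).im = 0 := by
    have : (-(1 / 6) : ℂ) = ((-(1 / 6) : ℝ) : ℂ) := by push_cast; ring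
    rw [this, Complex.ofReal_im]
  rw [e1] at hre
  rw [e2, mul_zero] at him
  have hs := kv_re_pos hz
  have hk : (kv z).re * (kv z).im = 0 := by linarith
  rw [hk] at hre
  have : 0 < (kv z).re ^ 3 := by positivity
  nlinarith

lemma k_props :
    DifferentiableOn ℂ kh (ball (0 : ℂ) 1) ∧ DifferentiableOn ℂ kg (ball (0 : ℂ) 1) ∧
    kh 0 = 0 ∧ deriv kh 0 = 1 ∧ kg 0 = 0 ∧ deriv kg 0 = 0 ∧
    (∀ z ∈ ball (0 : ℂ) 1, ‖deriv kg z‖ < ‖deriv kh z‖) := by
  have h0mem : (0:ℂ) ∈ ball (0:ℂ) 1 := mem_ball_self one_pos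
  have hv0 : kv 0 = 1 := by simp [kv]
  refine ⟨fun z hz => (kh_deriv hz).differentiableAt.differentiableWithinAt,
    fun z hz => (kg_deriv hz).differentiableAt.differentiableWithinAt, ?_, ?_, ?_, ?_, ?_⟩
  · simp [kh, hv0]
  · rw [(kh_deriv h0mem).deriv, hv0]; norm_num
  · simp [kg, hv0]
  · rw [(kg_deriv h0mem).deriv, hv0]; norm_num
  · intro z hz
    rw [(kh_deriv hz).deriv, (kg_deriv hz).deriv, norm_mul, norm_mul]
    have hs := kv_re_pos hz
    apply mul_lt_mul_of_pos_left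
    · have h1 : ‖kv z - 1‖ ^ 2 < ‖kv z + 1‖ ^ 2 := by
        rw [← Complex.normSq_eq_norm_sq, ← Complex.normSq_eq_norm_sq]
        simp only [Complex.normSq_apply, Complex.add_re, Complex.add_im, Complex.sub_re,
          Complex.sub_im, Complex.one_re, Complex.one_im]
        nlinarith
      exact lt_of_pow_lt_pow_left₀ 2 (norm_nonneg _) h1
    · rw [norm_pos_iff]
      have hv : kv z ≠ 0 := by
        intro h
        rw [h] at hs
        simp at hs
      have h2 := one_sub_ne hz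
      exact div_ne_zero (mul_ne_zero hv (div_ne_zero two_ne_zero (pow_ne_zero 2 h2))) (by norm_num)

end

end Pool.Agent.Lib.MP_7682a8_an.H10
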