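import Mathlib
import Pool.Agent.Lib.MP_7682a8_an.H10.Kernel

/-!
The main inequality: mixing the kernel estimate with the Herglotz measure of `q`.
-/

set_option autoImplicit false

open Metric MeasureTheory Set

namespace Pool.Agent.Lib.MP_7682a8_an.H10

noncomputable section

lemma invSqrt_integrable (a b : ℝ) : IntervalIntegrable (fun x : ℝ => (Real.sqrt x)⁻¹) volume a b := by
  suffices h : ∀ c : ℝ, IntervalIntegrable (fun x : ℝ => (Real.sqrt x)⁻¹) volume 0 c from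
    (h a).symm.trans (h b)
  intro c
  have h1 : IntervalIntegrable (fun x : ℝ => x ^ (-(1/2) : ℝ)) volume 0 c :=
    intervalIntegral.intervalIntegrable_rpow' (by norm_num)
  rcases le_total 0 c with hc | hc
  · refine h1.congr ?_
    intro x hx
    rw [uIoc_of_le hc] at hx
    simp only
    rw [Real.rpow_neg hx.1.le, Real.sqrt_eq_rpow]
  · refine (intervalIntegrable_const (c := (0:ℝ))).congr ?_
    intro x hx
    rw [uIoc_of_ge hc] at hx
    simp only
    rw [Real.sqrt_eq_zero_of_nonpos hx.2, inv_zero]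

lemma norm_cexp_sub_ge_one_sub {σ s : ℝ} (hs : s ∈ Ioo (0:ℝ) 1) :
    1 - s ≤ ‖Complex.exp (σ * Complex.I) - (s:ℂ)‖ := by
  have h1 := norm_sub_norm_le (Complex.exp (σ * Complex.I)) (s:ℂ)
  rw [Complex.norm_exp_ofReal_mul_I, Complex.norm_real, Real.norm_of_nonneg hs.1.le] at h1
  exact h1

lemma norm_cexp_sub_ge_sin {σ s : ℝ} (h0 : 0 < σ) (h1 : σ < 2 * Real.pi) (hs : s ∈ Ioo (0:ℝ) 1) :
    Real.sin (σ / 2) ≤ ‖Complex.exp (σ * Complex.I) - (s:ℂ)‖ := by
  have h2 := norm_cexp_sub_ge_one_sub (σ := σ) hs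
  have h3 : ‖Complex.exp (σ * Complex.I) - 1‖ = 2 * Real.sin (σ / 2) := by
    have := exp_sub_exp σ 0
    simp only [Complex.ofReal_zero, zero_mul, Complex.exp_zero, sub_zero, add_zero] at this
    rw [this, norm_mul, Complex.norm_exp_ofReal_mul_I, one_mul, norm_mul, norm_mul,
      Complex.norm_I, Complex.norm_real, Real.norm_of_nonneg]
    · norm_num
    · apply Real.sin_nonneg_of_nonneg_of_le_pi <;> linarith
  have h4 : ‖Complex.exp (σ * Complex.I) - 1‖ ≤ ‖Complex.exp (σ * Complex.I) - (s:ℂ)‖ + ‖(s:ℂ) - 1‖ := by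
    have := norm_add_le (Complex.exp (σ * Complex.I) - (s:ℂ)) ((s:ℂ) - 1)
    simpa using this
  have h5 : ‖(s:ℂ) - 1‖ = 1 - s := by
    have : (s:ℂ) - 1 = ((s - 1 : ℝ) : ℂ) := by push_cast; ring
    rw [this, Complex.norm_real, Real.norm_eq_abs, abs_of_neg (by linarith [hs.2])]
    ring
  linarith

lemma norm_cexp_sub_ge_left {σ s : ℝ} (h0 : 0 < σ) (h1 : σ ≤ Real.pi) (hs : s ∈ Ioo (0:ℝ) 1) :
    σ / Real.pi ≤ ‖Complex.exp (σ * Complex.I) - (s:ℂ)‖ := by
  have hpi := Real.pi_pos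
  refine le_trans ?_ (norm_cexp_sub_ge_sin h0 (by linarith) hs)
  have := Real.mul_le_sin (x := σ / 2) (by linarith) (by linarith)
  calc σ / Real.pi = 2 / Real.pi * (σ / 2) := by ring
    _ ≤ _ := this

lemma norm_cexp_sub_ge_right {σ s : ℝ} (h0 : Real.pi ≤ σ) (h1 : σ < 2 * Real.pi)
    (hs : s ∈ Ioo (0:ℝ) 1) :
    (2 * Real.pi - σ) / Real.pi ≤ ‖Complex.exp (σ * Complex.I) - (s:ℂ)‖ := by
  have hpi := Real.pi_pos
  refine le_trans ?_ (norm_cexp_sub_ge_sin (by linarith) (by linarith) hs)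
  have := Real.mul_le_sin (x := Real.pi - σ / 2) (by linarith) (by linarith)
  rw [Real.sin_pi_sub] at this
  calc (2 * Real.pi - σ) / Real.pi = 2 / Real.pi * (Real.pi - σ / 2) := by ring
    _ ≤ _ := this

lemma inv_le_of_two {d x y : ℝ} (hx : 0 < x) (hy : 0 < y) (h1 : x ≤ d) (h2 : y ≤ d) :
    d⁻¹ ≤ (Real.sqrt x)⁻¹ * (Real.sqrt y)⁻¹ := by
  have hd : 0 < d := lt_of_lt_of_le hx h1
  rw [← mul_inv, ← Real.sqrt_mul hx.le]
  apply inv_anti₀ (Real.sqrt_pos.mpr (mul_pos hx hy))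
  rw [Real.sqrt_le_left hd.le]
  nlinarith

lemma inv_norm_bound {σ s : ℝ} (hσ : σ ∈ Ioo (0:ℝ) (2 * Real.pi)) (hs : s ∈ Ioo (0:ℝ) 1) :
    ‖Complex.exp (σ * Complex.I) - (s:ℂ)‖⁻¹ ≤
      (Real.sqrt (1 - s))⁻¹ * (Real.sqrt Real.pi * ((Real.sqrt σ)⁻¹ + (Real.sqrt (2 * Real.pi - σ))⁻¹)) := by
  have hpi := Real.pi_pos
  have hs1 : 0 < 1 - s := by linarith [hs.2]
  have hA : 0 ≤ (Real.sqrt (1 - s))⁻¹ := by positivity
  have key : ∀ m : ℝ, 0 < m → m / Real.pi ≤ ‖Complex.exp (σ * Complex.I) - (s:ℂ)‖ →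
      ‖Complex.exp (σ * Complex.I) - (s:ℂ)‖⁻¹ ≤ (Real.sqrt (1 - s))⁻¹ * (Real.sqrt Real.pi * (Real.sqrt m)⁻¹) := by
    intro m hm h
    have h2 := inv_le_of_two hs1 (div_pos hm hpi) (norm_cexp_sub_ge_one_sub (σ := σ) hs) h
    rw [Real.sqrt_div hm.le, inv_div] at h2
    calc _ ≤ _ := h2
      _ = _ := by ring
  rcases le_total σ Real.pi with h | h
  · refine (key σ hσ.1 (norm_cexp_sub_ge_left hσ.1 h hs)).trans ?_
    apply mul_le_mul_of_nonneg_left _ hA
    apply mul_le_mul_of_nonneg_left _ (Real.sqrt_nonneg _)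
    have : 0 ≤ (Real.sqrt (2 * Real.pi - σ))⁻¹ := by positivity
    linarith
  · refine (key (2 * Real.pi - σ) (by linarith [hσ.2]) (norm_cexp_sub_ge_right h hσ.2 hs)).trans ?_
    apply mul_le_mul_of_nonneg_left _ hA
    apply mul_le_mul_of_nonneg_left _ (Real.sqrt_nonneg _)
    have : 0 ≤ (Real.sqrt σ)⁻¹ := by positivity
    linarith

/-- Integrability of the kernel on the product. -/
lemma integrableOn_K {ρ : ℝ → ℝ} {W : ℝ → ℂ} (hρ : Continuous ρ) (hW : ContinuousOn W (Icc 0 1)) :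
    IntegrableOn (fun x : ℝ × ℝ => (Complex.exp (x.2 * Complex.I) + x.1) /
      (Complex.exp (x.2 * Complex.I) - x.1) * (ρ x.2 : ℂ) * W x.1)
      (uIoc 0 1 ×ˢ uIoc 0 (2 * Real.pi)) := by
  have hpi := Real.pi_pos
  have h2pi : (0:ℝ) ≤ 2 * Real.pi := by positivity
  have hae : (uIoc (0:ℝ) 1 ×ˢ uIoc 0 (2 * Real.pi) : Set (ℝ × ℝ)) =ᵐ[volume]
      (Ioo (0:ℝ) 1 ×ˢ Ioo 0 (2 * Real.pi) : Set (ℝ × ℝ)) := by
    rw [uIoc_of_le zero_le_one, uIoc_of_le h2pi]
    rw [Measure.volume_eq_prod]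
    exact Measure.set_prod_ae_eq Ioo_ae_eq_Ioc.symm Ioo_ae_eq_Ioc.symm
  apply IntegrableOn.congr_set_ae _ hae
  obtain ⟨B, hB⟩ := (isCompact_Icc (a := (0:ℝ)) (b := 1)).exists_bound_of_continuousOn hW
  obtain ⟨C, hC⟩ := (isCompact_Icc (a := (0:ℝ)) (b := 2 * Real.pi)).exists_bound_of_continuousOn
    hρ.continuousOn
  have hB0 : 0 ≤ B := le_trans (norm_nonneg _) (hB 0 ⟨le_rfl, zero_le_one⟩)
  have hC0 : 0 ≤ C := le_trans (norm_nonneg _) (hC 0 ⟨le_rfl, h2pi⟩)
  have hmeas : MeasurableSet (Ioo (0:ℝ) 1 ×ˢ Ioo 0 (2 * Real.pi) : Set (ℝ × ℝ)) :=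
    measurableSet_Ioo.prod measurableSet_Ioo
  have hcont : ContinuousOn (fun x : ℝ × ℝ => (Complex.exp (x.2 * Complex.I) + x.1) /
      (Complex.exp (x.2 * Complex.I) - x.1) * (ρ x.2 : ℂ) * W x.1)
      (Ioo (0:ℝ) 1 ×ˢ Ioo 0 (2 * Real.pi)) := by
    apply ContinuousOn.mul
    · apply ContinuousOn.mul
      · apply ContinuousOn.div (by fun_prop) (by fun_prop)
        rintro ⟨s, σ⟩ ⟨hs, hσ⟩
        have h := norm_cexp_sub_ge_one_sub (σ := σ) hs
        have h2 : 0 < ‖Complex.exp (σ * Complex.I) - (s:ℂ)‖ := by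
          simp only at hs
          linarith [hs.2]
        exact norm_pos_iff.mp h2
      · exact (Complex.continuous_ofReal.comp (hρ.comp continuous_snd)).continuousOn
    · refine hW.comp continuous_fst.continuousOn ?_
      rintro ⟨s, σ⟩ ⟨hs, hσ⟩
      exact ⟨hs.1.le, hs.2.le⟩
  have hg1 : IntegrableOn (fun s : ℝ => 2 * C * B * (Real.sqrt (1 - s))⁻¹) (Ioo 0 1) := by
    have h1 := (invSqrt_integrable 1 0).comp_sub_left 1 (by finiteness)
    simp only [sub_self, sub_zero] at h1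
    have h2 := (h1.const_mul (2 * C * B))
    rw [intervalIntegrable_iff_integrableOn_Ioo_of_le zero_le_one] at h2
    exact h2
  have hg2 : IntegrableOn (fun σ : ℝ => Real.sqrt Real.pi *
      ((Real.sqrt σ)⁻¹ + (Real.sqrt (2 * Real.pi - σ))⁻¹)) (Ioo 0 (2 * Real.pi)) := by
    have h1 := (invSqrt_integrable (2 * Real.pi) 0).comp_sub_left (2 * Real.pi) (by finiteness)
    simp only [sub_self, sub_zero] at h1
    have h2 := invSqrt_integrable 0 (2 * Real.pi)
    have h3 := (h2.add h1).const_mul (Real.sqrt Real.pi)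
    rw [intervalIntegrable_iff_integrableOn_Ioo_of_le h2pi] at h3
    exact h3
  have hprod : IntegrableOn (fun x : ℝ × ℝ => (2 * C * B * (Real.sqrt (1 - x.1))⁻¹) *
      (Real.sqrt Real.pi * ((Real.sqrt x.2)⁻¹ + (Real.sqrt (2 * Real.pi - x.2))⁻¹)))
      (Ioo (0:ℝ) 1 ×ˢ Ioo 0 (2 * Real.pi)) := by
    rw [IntegrableOn, Measure.volume_eq_prod, ← Measure.prod_restrict]
    exact Integrable.mul_prod hg1 hg2
  refine Integrable.mono' hprod (hcont.aestronglyMeasurable hmeas) ?_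
  rw [ae_restrict_iff' hmeas]
  filter_upwards with x hx
  obtain ⟨hs, hσ⟩ := hx
  have h1 := inv_norm_bound hσ hs
  have h2 : ‖Complex.exp (x.2 * Complex.I) + (x.1:ℂ)‖ ≤ 2 := by
    refine (norm_add_le _ _).trans ?_
    rw [Complex.norm_exp_ofReal_mul_I, Complex.norm_real, Real.norm_of_nonneg hs.1.le]
    linarith [hs.2]
  have h3 : ‖(ρ x.2 : ℂ)‖ ≤ C := by
    rw [Complex.norm_real]; exact hC _ ⟨hσ.1.le, hσ.2.le⟩
  have h4 : ‖W x.1‖ ≤ B := hB _ ⟨hs.1.le, hs.2.le⟩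
  rw [norm_mul, norm_mul, norm_div, div_eq_mul_inv]
  have hP : 0 ≤ (Real.sqrt (1 - x.1))⁻¹ * (Real.sqrt Real.pi *
      ((Real.sqrt x.2)⁻¹ + (Real.sqrt (2 * Real.pi - x.2))⁻¹)) := by positivity
  calc ‖Complex.exp (x.2 * Complex.I) + (x.1:ℂ)‖ * ‖Complex.exp (x.2 * Complex.I) - (x.1:ℂ)‖⁻¹ *
        ‖(ρ x.2 : ℂ)‖ * ‖W x.1‖
      ≤ 2 * ((Real.sqrt (1 - x.1))⁻¹ * (Real.sqrt Real.pi *
      ((Real.sqrt x.2)⁻¹ + (Real.sqrt (2 * Real.pi - x.2))⁻¹))) * C * B := by
        gcongr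
    _ = _ := by ring

/-- **Main inequality.** -/
lemma main_ineq {G q : ℂ → ℂ} {R : ℝ} (hR : 1 < R) (hG : DifferentiableOn ℂ G (ball 0 R))
    (hpos : ∀ z ∈ sphere (0:ℂ) 1, 0 ≤ (G z).re) (hG1 : G 1 = 0) (him : (deriv G 1).im = 0)
    (hq : DifferentiableOn ℂ q (ball 0 R)) (hqpos : ∀ z ∈ sphere (0:ℂ) 1, 0 ≤ (q z).re) :
    (∫ s in (0:ℝ)..1, q s * (deriv G s + s * deriv (deriv G) s)).re ≤
      -(1 / 3) * (q 0).re * (G 0).re := by
  have hpi := Real.pi_pos
  have h2pi : (0:ℝ) ≤ 2 * Real.pi := by positivity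
  obtain ⟨W, hWdef⟩ : ∃ W : ℝ → ℂ, ∀ s : ℝ, W s = deriv G s + s * deriv (deriv G) s := ⟨_, fun _ => rfl⟩
  obtain ⟨ρ, hρdef⟩ : ∃ ρ : ℝ → ℝ, ∀ σ : ℝ, ρ σ = (q (Complex.exp (σ * Complex.I))).re :=
    ⟨_, fun _ => rfl⟩
  have hball : ∀ s ∈ Icc (0:ℝ) 1, (s:ℂ) ∈ ball (0:ℂ) R := by
    intro s hs
    rw [mem_ball_zero_iff, Complex.norm_real, Real.norm_of_nonneg hs.1]
    linarith [hs.2]
  have hmem : ∀ θ : ℝ, Complex.exp (θ * Complex.I) ∈ sphere (0:ℂ) 1 := by
    intro θ; simp [Complex.norm_exp_ofReal_mul_I]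
  have hd1 := hG.deriv isOpen_ball
  have hd2 := hd1.deriv isOpen_ball
  have hcs : ContinuousOn (fun s : ℝ => (s:ℂ)) (Icc 0 1) := by fun_prop
  have hc1 : ContinuousOn (fun s : ℝ => deriv G s) (Icc 0 1) := hd1.continuousOn.comp hcs hball
  have hc2 : ContinuousOn (fun s : ℝ => deriv (deriv G) s) (Icc 0 1) :=
    hd2.continuousOn.comp hcs hball
  have hcq : ContinuousOn (fun s : ℝ => q s) (Icc 0 1) := hq.continuousOn.comp hcs hball
  have hW : ContinuousOn W (Icc 0 1) := by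
    refine (hc1.add (hcs.mul hc2)).congr ?_
    intro s _
    rw [hWdef]; rfl
  have hρ : Continuous ρ := by
    have h1 : Continuous (fun σ : ℝ => q (Complex.exp (σ * Complex.I))) := by
      rw [← continuousOn_univ]
      have h2 : ContinuousOn (fun θ : ℝ => Complex.exp (θ * Complex.I)) univ := by fun_prop
      exact hq.continuousOn.comp h2 (fun θ _ => sphere_subset_ball hR (hmem θ))
    have h2 := Complex.continuous_re.comp h1
    refine h2.congr ?_
    intro σ; rw [hρdef]; rfl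
  have hρ0 : ∀ σ, 0 ≤ ρ σ := fun σ => by rw [hρdef]; exact hqpos _ (hmem σ)
  have hIK := integrableOn_K hρ hW
  obtain ⟨K, hK⟩ : ∃ K : ℝ → ℝ → ℂ, ∀ s σ : ℝ, K s σ = (Complex.exp (σ * Complex.I) + s) /
      (Complex.exp (σ * Complex.I) - s) * (ρ σ : ℂ) * W s := ⟨_, fun _ _ => rfl⟩
  have hIK' : IntegrableOn K.uncurry (uIoc 0 1 ×ˢ uIoc 0 (2 * Real.pi)) := by
    refine hIK.congr_fun ?_ (measurableSet_uIoc.prod measurableSet_uIoc)
    rintro ⟨s, σ⟩ _
    simp only [Function.uncurry, hK]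
  have hswap := intervalIntegral_intervalIntegral_swap (F := K) hIK'
  -- Herglotz formula
  have hherg : ∀ s ∈ Ico (0:ℝ) 1, ∫ σ in (0:ℝ)..(2 * Real.pi), K s σ =
      2 * Real.pi * ((q s - Complex.I * ((q 0).im : ℂ)) * W s) := by
    intro s hs
    have hsb : (s:ℂ) ∈ ball (0:ℂ) 1 := by
      rw [mem_ball_zero_iff, Complex.norm_real, Real.norm_of_nonneg hs.1]; exact hs.2
    have h1 := herglotz hR hq hsb
    rw [Real.circleAverage_def] at h1
    have h2 : q s - Complex.I * ((q 0).im : ℂ) = (2 * Real.pi)⁻¹ • ∫ θ in (0:ℝ)..2 * Real.pi,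
        (circleMap 0 1 θ + s) / (circleMap 0 1 θ - s) * ((q (circleMap 0 1 θ)).re : ℂ) := by
      rw [h1]; ring
    rw [h2]
    have h3 : ∫ σ in (0:ℝ)..(2 * Real.pi), K s σ = (∫ θ in (0:ℝ)..2 * Real.pi,
        (circleMap 0 1 θ + s) / (circleMap 0 1 θ - s) * ((q (circleMap 0 1 θ)).re : ℂ)) * W s := by
      rw [← intervalIntegral.integral_mul_const]
      apply intervalIntegral.integral_congr
      intro θ _
      simp only [hK, hρdef, circleMap, Complex.ofReal_one, one_mul, zero_add]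
    rw [h3]
    simp only [Complex.real_smul]
    have : (2 * (Real.pi:ℂ)) ≠ 0 := by
      have : (Real.pi:ℂ) ≠ 0 := by exact_mod_cast Real.pi_ne_zero
      simp [this]
    push_cast
    field_simp
  have hL : ∫ s in (0:ℝ)..1, ∫ σ in (0:ℝ)..(2 * Real.pi), K s σ =
      ∫ s in (0:ℝ)..1, 2 * Real.pi * ((q s - Complex.I * ((q 0).im : ℂ)) * W s) := by
    apply intervalIntegral.integral_congr_ae
    have h1 : ∀ᵐ s : ℝ, s ≠ 1 := by
      rw [ae_iff]; simp
    filter_upwards [h1] with s hs1 hs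
    rw [uIoc_of_le zero_le_one] at hs
    exact hherg s ⟨hs.1.le, lt_of_le_of_ne hs.2 hs1⟩
  -- inner integrals in the other order
  have hJ : ∀ σ ∈ Ioo (0:ℝ) (2 * Real.pi), (∫ s in (0:ℝ)..1, K s σ).re ≤ ρ σ * (-(1 / 3) * (G 0).re) := by
    intro σ hσ
    have h1 : ∫ s in (0:ℝ)..1, K s σ = (ρ σ : ℂ) * ∫ s in (0:ℝ)..1,
        (Complex.exp (σ * Complex.I) + s) / (Complex.exp (σ * Complex.I) - s) *
      (deriv G s + s * deriv (deriv G) s) := by
      rw [← intervalIntegral.integral_const_mul]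
      apply intervalIntegral.integral_congr
      intro s _
      simp only [hK, hWdef]
      ring
    rw [h1, Complex.re_ofReal_mul]
    exact mul_le_mul_of_nonneg_left (kernel_estimate hR hG hpos hG1 him hσ.1 hσ.2) (hρ0 σ)
  have hint2 : IntervalIntegrable (fun σ => ∫ s in (0:ℝ)..1, K s σ) volume 0 (2 * Real.pi) := by
    rw [intervalIntegrable_iff_integrableOn_Ioc_of_le h2pi]
    have h1 : Integrable K.uncurry ((volume.restrict (Ioc (0:ℝ) 1)).prod
        (volume.restrict (Ioc 0 (2 * Real.pi)))) := by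
      rw [Measure.prod_restrict, ← Measure.volume_eq_prod]
      rw [uIoc_of_le zero_le_one, uIoc_of_le h2pi] at hIK'
      exact hIK'
    have h2 := h1.integral_prod_right
    refine h2.congr ?_
    filter_upwards with σ
    rw [intervalIntegral.integral_of_le zero_le_one]
    rfl
  have hR1 : (∫ σ in (0:ℝ)..(2 * Real.pi), ∫ s in (0:ℝ)..1, K s σ).re ≤
      ∫ σ in (0:ℝ)..(2 * Real.pi), ρ σ * (-(1 / 3) * (G 0).re) := by
    have hre := Complex.reCLM.intervalIntegral_comp_comm hint2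
    rw [← Complex.reCLM_apply, ← hre]
    apply intervalIntegral.integral_mono_on_of_le_Ioo h2pi
    · exact ⟨Complex.reCLM.integrable_comp hint2.1, Complex.reCLM.integrable_comp hint2.2⟩
    · exact (hρ.mul continuous_const).intervalIntegrable _ _
    · intro σ hσ
      exact hJ σ hσ
  -- mean of rho
  have hmean : ∫ σ in (0:ℝ)..(2 * Real.pi), ρ σ = 2 * Real.pi * (q 0).re := by
    have h0 : (q 0).re = Real.circleAverage (fun ζ => (q ζ).re) 0 1 := by
      rw [← re_poisson hR hq (mem_ball_self one_pos)]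
      apply Real.circleAverage_congr_sphere
      intro ζ hζ
      have hne : ζ ≠ 0 := by
        rintro rfl; simp at hζ
      simp [div_self hne]
    rw [h0, Real.circleAverage_def, smul_eq_mul, ← mul_assoc, mul_inv_cancel₀ (by positivity),
      one_mul]
    apply intervalIntegral.integral_congr
    intro θ _
    simp only [hρdef, circleMap, Complex.ofReal_one, one_mul, zero_add]
  -- integral of W
  have hWi : ∫ s in (0:ℝ)..1, W s = deriv G 1 := by
    have key := intervalIntegral.integral_eq_sub_of_hasDerivAt (a := 0) (b := 1)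
      (f := fun t : ℝ => (t:ℂ) * deriv G t) (f' := W) (by
        intro s hs
        rw [uIcc_of_le zero_le_one] at hs
        have hG2 : HasDerivAt (deriv G) (deriv (deriv G) s) (s:ℂ) :=
          (hd1.differentiableAt (isOpen_ball.mem_nhds (hball s hs))).hasDerivAt
        have hid : HasDerivAt (fun z : ℂ => z) 1 (s:ℂ) := hasDerivAt_id _
        have h1 := (hid.mul hG2).comp_ofReal
        rw [hWdef]
        simpa using h1) (by
        apply ContinuousOn.intervalIntegrable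
        rw [uIcc_of_le zero_le_one]
        exact hW)
    rw [key]
    simp
  have hWint : IntervalIntegrable W volume 0 1 := by
    apply ContinuousOn.intervalIntegrable
    rw [uIcc_of_le zero_le_one]
    exact hW
  have hqWint : IntervalIntegrable (fun s : ℝ => q s * W s) volume 0 1 := by
    apply ContinuousOn.intervalIntegrable
    rw [uIcc_of_le zero_le_one]
    exact hcq.mul hW
  have hL2 : ∫ s in (0:ℝ)..1, 2 * Real.pi * ((q s - Complex.I * ((q 0).im : ℂ)) * W s) =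
      2 * Real.pi * ((∫ s in (0:ℝ)..1, q s * W s) - Complex.I * ((q 0).im : ℂ) * deriv G 1) := by
    have e1 : ∫ s in (0:ℝ)..1, (Complex.I * ((q 0).im : ℂ)) * W s =
        Complex.I * ((q 0).im : ℂ) * deriv G 1 := by
      rw [intervalIntegral.integral_const_mul, hWi]
    have e2 : ∫ s in (0:ℝ)..1, (q s - Complex.I * ((q 0).im : ℂ)) * W s =
        (∫ s in (0:ℝ)..1, q s * W s) - ∫ s in (0:ℝ)..1, (Complex.I * ((q 0).im : ℂ)) * W s := by
      rw [← intervalIntegral.integral_sub hqWint (hWint.const_mul _)]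
      apply intervalIntegral.integral_congr
      intro s _
      simp only
      ring
    rw [intervalIntegral.integral_const_mul, e2, e1]
  have hIb : (Complex.I * ((q 0).im : ℂ) * deriv G 1).re = 0 := by
    simp [Complex.mul_re, him]
  have hfin : ∫ s in (0:ℝ)..1, q s * (deriv G s + s * deriv (deriv G) s) =
      ∫ s in (0:ℝ)..1, q s * W s := by
    apply intervalIntegral.integral_congr
    intro s _
    simp only [hWdef]
  rw [hfin]
  rw [← hswap, hL, hL2, intervalIntegral.integral_mul_const, hmean] at hR1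
  have h5 : ((2 * Real.pi * ((∫ s in (0:ℝ)..1, q s * W s) - Complex.I * ((q 0).im : ℂ) * deriv G 1) : ℂ)).re
      = 2 * Real.pi * (∫ s in (0:ℝ)..1, q s * W s).re := by
    have : (2 * (Real.pi : ℂ)) = ((2 * Real.pi : ℝ) : ℂ) := by push_cast; ring
    rw [this, Complex.re_ofReal_mul, Complex.sub_re, hIb, sub_zero]
  rw [h5] at hR1
  have h6 : 2 * Real.pi * (∫ s in (0:ℝ)..1, q s * W s).re ≤
      2 * Real.pi * (-(1 / 3) * (q 0).re * (G 0).re) := by
    calc _ ≤ _ := hR1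
      _ = _ := by ring
  exact le_of_mul_le_mul_left h6 (by positivity)

end

end Pool.Agent.Lib.MP_7682a8_an.H10
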