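import Mathlib
import Pool.Agent.Lib.MP_7682a8_an.H10.MainLemma

/-!
The ray theorem at the origin, and at an arbitrary point of the disc.
-/

set_option autoImplicit false

open Metric MeasureTheory Set

namespace Pool.Agent.Lib.MP_7682a8_an.H10

noncomputable section

lemma re_div_formula (a b : ℂ) : ((a + b) / (a - b)).re = (‖a‖ ^ 2 - ‖b‖ ^ 2) / ‖a - b‖ ^ 2 := by
  have h := congrFun (poissonKernel_eq_re_herglotzRieszKernel (c := 0) (w := b)) a
  simp only [poissonKernel_def, Function.comp_apply, herglotzRieszKernel_def, sub_zero] at h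
  exact h.symm

/-- Core statement: `φ` and `P` analytic on the disc with `P' = Q φ'`, `Re Q ≥ 0`. On every circle
there is a point where `φ` is real and `Re P` is at most `-(r/6) Re Q(0) |φ'(0)|`. -/
lemma core {φ P Q : ℂ → ℂ} (hφ : DifferentiableOn ℂ φ (ball 0 1)) (hP : DifferentiableOn ℂ P (ball 0 1))
    (hQ : DifferentiableOn ℂ Q (ball 0 1)) (hφ0 : φ 0 = 0) (hP0 : P 0 = 0)
    (hPQ : ∀ z ∈ ball (0:ℂ) 1, deriv P z = Q z * deriv φ z)
    (hQpos : ∀ z ∈ ball (0:ℂ) 1, 0 ≤ (Q z).re) {r : ℝ} (hr0 : 0 < r) (hr1 : r < 1) :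
    ∃ p : ℂ, ‖p‖ = r ∧ (φ p).im = 0 ∧ (P p).re ≤ -(r / 6) * ((Q 0).re * ‖deriv φ 0‖) := by
  have h0mem : (0:ℂ) ∈ ball (0:ℂ) 1 := mem_ball_self one_pos
  -- primitive of φ / z
  have hψ : DifferentiableOn ℂ (dslope φ 0) (ball 0 1) :=
    (Complex.differentiableOn_dslope (isOpen_ball.mem_nhds h0mem)).mpr hφ
  obtain ⟨Φ, hΦ⟩ := hψ.isExactOn_ball
  have hzψ : ∀ z : ℂ, z * dslope φ 0 z = φ z := by
    intro z
    have := sub_smul_dslope φ 0 z
    simpa [hφ0] using this
  have hΦd : DifferentiableOn ℂ Φ (ball 0 1) := fun z hz =>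
    (hΦ z hz).differentiableAt.differentiableWithinAt
  -- the minimum point
  have hsph : IsCompact (sphere (0:ℂ) r) := isCompact_sphere 0 r
  have hne : (sphere (0:ℂ) r).Nonempty := ⟨(r:ℂ), by simp [abs_of_pos hr0]⟩
  have hsub : sphere (0:ℂ) r ⊆ ball 0 1 := sphere_subset_ball hr1
  have hcont : ContinuousOn (fun z => (Φ z).re) (sphere (0:ℂ) r) :=
    Complex.continuous_re.comp_continuousOn (hΦd.continuousOn.mono hsub)
  obtain ⟨p, hp, hmin⟩ := hsph.exists_isMinOn hne hcont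
  have hpn : ‖p‖ = r := by simpa using hp
  have hpb : p ∈ ball (0:ℂ) 1 := hsub hp
  have hmin' : ∀ z : ℂ, ‖z‖ = r → (Φ p).re ≤ (Φ z).re := by
    intro z hz
    exact hmin (show z ∈ sphere (0:ℂ) r by simpa using hz)
  -- Im φ p = 0
  have him : (φ p).im = 0 := by
    have h1 : HasDerivAt (fun t : ℝ => p * Complex.exp (t * Complex.I)) (p * (Complex.I * Complex.exp ((0:ℝ) * Complex.I))) 0 :=
      (hasDerivAt_cexp_mul_I 0).const_mul p
    have h2 : HasDerivAt Φ (dslope φ 0 p) (p * Complex.exp ((0:ℝ) * Complex.I)) := by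
      have : p * Complex.exp ((0:ℝ) * Complex.I) = p := by simp
      rw [this]
      exact hΦ p hpb
    have h3 := hasDerivAt_comp_real (c := fun t : ℝ => p * Complex.exp (t * Complex.I)) h2 h1
    have h4 := Complex.reCLM.hasFDerivAt.comp_hasDerivAt (0:ℝ) h3
    have h5 : IsLocalMin (fun t : ℝ => (Φ (p * Complex.exp (t * Complex.I))).re) 0 := by
      filter_upwards with t
      have := hmin' (p * Complex.exp (t * Complex.I)) (by
        rw [norm_mul, Complex.norm_exp_ofReal_mul_I, mul_one, hpn])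
      simpa using this
    have h6 := h5.hasDerivAt_eq_zero h4
    simp only [Complex.ofReal_zero, zero_mul, Complex.exp_zero, mul_one, Complex.reCLM_apply] at h6
    have h7 : dslope φ 0 p * (p * Complex.I) = φ p * Complex.I := by
      rw [← hzψ p]; ring
    rw [h7] at h6
    simpa using h6
  -- rescaled functions
  have hR : 1 < 1 / r := by rw [lt_div_iff₀ hr0]; linarith
  have hmap : ∀ z ∈ ball (0:ℂ) (1 / r), p * z ∈ ball (0:ℂ) 1 := by
    intro z hz
    rw [mem_ball_zero_iff] at hz ⊢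
    rw [norm_mul, hpn]
    calc r * ‖z‖ < r * (1 / r) := mul_lt_mul_of_pos_left hz hr0
      _ = 1 := by field_simp
  set G : ℂ → ℂ := fun z => Φ (p * z) - Φ p with hG
  have hlin : ∀ z : ℂ, HasDerivAt (fun z : ℂ => p * z) p z := fun z => by
    simpa using (hasDerivAt_id z).const_mul p
  have hGder : ∀ z ∈ ball (0:ℂ) (1 / r), HasDerivAt G (dslope φ 0 (p * z) * p) z := by
    intro z hz
    have h1 := (hΦ (p * z) (hmap z hz))
    exact (HasDerivAt.comp z h1 (hlin z)).sub_const _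
  have hGd : DifferentiableOn ℂ G (ball 0 (1 / r)) := fun z hz =>
    (hGder z hz).differentiableAt.differentiableWithinAt
  have hGderiv : ∀ z ∈ ball (0:ℂ) (1 / r), deriv G z = dslope φ 0 (p * z) * p := fun z hz =>
    (hGder z hz).deriv
  have hGpos : ∀ z ∈ sphere (0:ℂ) 1, 0 ≤ (G z).re := by
    intro z hz
    have hz' : ‖z‖ = 1 := by simpa using hz
    have := hmin' (p * z) (by rw [norm_mul, hz', mul_one, hpn])
    simp only [hG, Complex.sub_re]
    linarith
  have hG1 : G 1 = 0 := by simp [hG]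
  have h1mem : (1:ℂ) ∈ ball (0:ℂ) (1 / r) := by rw [mem_ball_zero_iff]; simpa using hR
  have h0mem' : (0:ℂ) ∈ ball (0:ℂ) (1 / r) := mem_ball_self (by positivity)
  have hGim : (deriv G 1).im = 0 := by
    rw [hGderiv 1 h1mem, mul_one, mul_comm, hzψ, him]
  set q : ℂ → ℂ := fun z => Q (p * z) with hq
  have hqd : DifferentiableOn ℂ q (ball 0 (1 / r)) :=
    hQ.comp (fun z _ => (hlin z).differentiableAt.differentiableWithinAt) hmap
  have hqpos : ∀ z ∈ sphere (0:ℂ) 1, 0 ≤ (q z).re := by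
    intro z hz
    apply hQpos
    apply hmap
    exact sphere_subset_ball hR hz
  have main := main_ineq hR hGd hGpos hG1 hGim hqd hqpos
  -- identify the integral
  have hφder : ∀ z ∈ ball (0:ℂ) (1 / r), deriv G z + z * deriv (deriv G) z = deriv φ (p * z) * p := by
    intro z hz
    have hd2 : HasDerivAt (deriv G) (deriv (deriv G) z) z :=
      ((hGd.deriv isOpen_ball).differentiableAt (isOpen_ball.mem_nhds hz)).hasDerivAt
    have h1 : HasDerivAt (fun z => z * deriv G z) (1 * deriv G z + z * deriv (deriv G) z) z :=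
      (hasDerivAt_id z).mul hd2
    have h2 : HasDerivAt (fun z => φ (p * z)) (deriv φ (p * z) * p) z := by
      have h3 : HasDerivAt φ (deriv φ (p * z)) (p * z) :=
        (hφ.differentiableAt (isOpen_ball.mem_nhds (hmap z hz))).hasDerivAt
      exact HasDerivAt.comp z h3 (hlin z)
    have h3 : (fun z => z * deriv G z) =ᶠ[nhds z] (fun z => φ (p * z)) := by
      filter_upwards [isOpen_ball.mem_nhds hz] with y hy
      rw [hGderiv y hy, ← hzψ (p * y)]
      ring
    have h4 := (h2.congr_of_eventuallyEq h3).unique h1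
    rw [h4]; ring
  have hint : ∫ s in (0:ℝ)..1, q s * (deriv G s + s * deriv (deriv G) s) = P p := by
    have hball : ∀ s ∈ Icc (0:ℝ) 1, (s:ℂ) ∈ ball (0:ℂ) (1 / r) := by
      intro s hs
      rw [mem_ball_zero_iff, Complex.norm_real, Real.norm_of_nonneg hs.1]
      linarith [hs.2]
    have hd1 := hGd.deriv isOpen_ball
    have hd2 := hd1.deriv isOpen_ball
    have hcs : ContinuousOn (fun s : ℝ => (s:ℂ)) (Icc 0 1) := by fun_prop
    have hc1 : ContinuousOn (fun s : ℝ => deriv G s) (Icc 0 1) := hd1.continuousOn.comp hcs hball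
    have hc2 : ContinuousOn (fun s : ℝ => deriv (deriv G) s) (Icc 0 1) :=
      hd2.continuousOn.comp hcs hball
    have hcq : ContinuousOn (fun s : ℝ => q s) (Icc 0 1) := hqd.continuousOn.comp hcs hball
    have key := intervalIntegral.integral_eq_sub_of_hasDerivAt (a := 0) (b := 1)
      (f := fun t : ℝ => P (p * (t:ℂ)))
      (f' := fun s : ℝ => q s * (deriv G s + s * deriv (deriv G) s)) (by
        intro s hs
        rw [uIcc_of_le zero_le_one] at hs
        have hs' := hball s hs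
        have h3 : HasDerivAt P (deriv P (p * (s:ℂ))) (p * (s:ℂ)) :=
          (hP.differentiableAt (isOpen_ball.mem_nhds (hmap _ hs'))).hasDerivAt
        have h4 := (HasDerivAt.comp (s:ℂ) h3 (hlin (s:ℂ))).comp_ofReal
        refine h4.congr_deriv ?_
        rw [hPQ _ (hmap _ hs'), hφder _ hs']
        simp only [hq]
        ring) (by
        apply ContinuousOn.intervalIntegrable
        rw [uIcc_of_le zero_le_one]
        exact hcq.mul (hc1.add (hcs.mul hc2)))
    rw [key]
    simp [hP0]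
  rw [hint] at main
  refine ⟨p, hpn, him, main.trans ?_⟩
  have hcoef := coeff_bound hR hGd hGpos
  have hG0 : ‖deriv G 0‖ = ‖deriv φ 0‖ * r := by
    rw [hGderiv 0 h0mem', mul_zero, dslope_same, norm_mul, hpn]
  rw [hG0] at hcoef
  have hq0 : (q 0).re = (Q 0).re := by simp [hq]
  rw [hq0]
  have hQ0 := hQpos 0 h0mem
  nlinarith [mul_le_mul_of_nonneg_left hcoef hQ0]

/-- The ray theorem at the origin. -/
lemma ray_origin {h g : ℂ → ℂ} (hh : DifferentiableOn ℂ h (ball 0 1))
    (hg : DifferentiableOn ℂ g (ball 0 1)) (hh0 : h 0 = 0) (hg0 : g 0 = 0)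
    (hlt : ∀ z ∈ ball (0:ℂ) 1, ‖deriv g z‖ < ‖deriv h z‖) {u : ℂ} (hu : ‖u‖ = 1)
    {r : ℝ} (hr0 : 0 < r) (hr1 : r < 1) :
    ∃ z : ℂ, ‖z‖ = r ∧ ∃ ρ : ℝ,
      r / 6 * ((‖deriv h 0‖ ^ 2 - ‖deriv g 0‖ ^ 2) /
        ‖starRingEnd ℂ u * deriv h 0 - u * deriv g 0‖) ≤ ρ ∧
      h z + starRingEnd ℂ (g z) = ρ * u := by
  have h0mem : (0:ℂ) ∈ ball (0:ℂ) 1 := mem_ball_self one_pos
  have huu : starRingEnd ℂ u * u = 1 := by
    rw [Complex.conj_mul', hu]; norm_num
  set H : ℂ → ℂ := fun z => -(starRingEnd ℂ u * h z) with hH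
  set K : ℂ → ℂ := fun z => -(u * g z) with hK
  have hHd : DifferentiableOn ℂ H (ball 0 1) := (hh.const_mul _).neg
  have hKd : DifferentiableOn ℂ K (ball 0 1) := (hg.const_mul _).neg
  have hH' : ∀ z ∈ ball (0:ℂ) 1, HasDerivAt H (-(starRingEnd ℂ u * deriv h z)) z := fun z hz =>
    (((hh.differentiableAt (isOpen_ball.mem_nhds hz)).hasDerivAt).const_mul _).neg
  have hK' : ∀ z ∈ ball (0:ℂ) 1, HasDerivAt K (-(u * deriv g z)) z := fun z hz =>
    (((hg.differentiableAt (isOpen_ball.mem_nhds hz)).hasDerivAt).const_mul _).neg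
  have hHn : ∀ z ∈ ball (0:ℂ) 1, ‖deriv H z‖ = ‖deriv h z‖ := by
    intro z hz
    rw [(hH' z hz).deriv, norm_neg, norm_mul, Complex.norm_conj, hu, one_mul]
  have hKn : ∀ z ∈ ball (0:ℂ) 1, ‖deriv K z‖ = ‖deriv g z‖ := by
    intro z hz
    rw [(hK' z hz).deriv, norm_neg, norm_mul, hu, one_mul]
  have hne : ∀ z ∈ ball (0:ℂ) 1, deriv H z - deriv K z ≠ 0 := by
    intro z hz h1
    rw [sub_eq_zero] at h1
    have h2 := hlt z hz
    rw [← hHn z hz, ← hKn z hz, h1] at h2
    exact lt_irrefl _ h2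
  set φ : ℂ → ℂ := fun z => H z - K z with hφ
  set P : ℂ → ℂ := fun z => H z + K z with hP
  set Q : ℂ → ℂ := fun z => (deriv H z + deriv K z) / (deriv H z - deriv K z) with hQ
  have hφ' : ∀ z ∈ ball (0:ℂ) 1, deriv φ z = deriv H z - deriv K z := fun z hz => by
    have h1 : HasDerivAt φ (_ - _) z := (hH' z hz).sub (hK' z hz)
    rw [h1.deriv, (hH' z hz).deriv, (hK' z hz).deriv]
  have hP' : ∀ z ∈ ball (0:ℂ) 1, deriv P z = deriv H z + deriv K z := fun z hz => by
    have h1 : HasDerivAt P (_ + _) z := (hH' z hz).add (hK' z hz)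
    rw [h1.deriv, (hH' z hz).deriv, (hK' z hz).deriv]
  obtain ⟨p, hpn, him, hre⟩ := core (φ := φ) (P := P) (Q := Q) (hHd.sub hKd) (hHd.add hKd)
    ((hHd.deriv isOpen_ball |>.add (hKd.deriv isOpen_ball)).div
      (hHd.deriv isOpen_ball |>.sub (hKd.deriv isOpen_ball)) hne)
    (by simp [hφ, hH, hK, hh0, hg0]) (by simp [hP, hH, hK, hh0, hg0])
    (by
      intro z hz
      rw [hP' z hz, hφ' z hz]
      simp only [hQ]
      rw [div_mul_cancel₀ _ (hne z hz)])
    (by
      intro z hz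
      simp only [hQ]
      rw [re_div_formula]
      have h1 := hlt z hz
      rw [← hHn z hz, ← hKn z hz] at h1
      have h2 : ‖deriv K z‖ ^ 2 ≤ ‖deriv H z‖ ^ 2 := by gcongr
      have h3 : 0 ≤ ‖deriv H z‖ ^ 2 - ‖deriv K z‖ ^ 2 := by linarith
      positivity)
    hr0 hr1
  refine ⟨p, hpn, -(P p).re, ?_, ?_⟩
  · have hφ0n : ‖deriv φ 0‖ = ‖starRingEnd ℂ u * deriv h 0 - u * deriv g 0‖ := by
      rw [hφ' 0 h0mem, (hH' 0 h0mem).deriv, (hK' 0 h0mem).deriv, ← norm_neg]
      congr 1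
      ring
    have hQ0 : (Q 0).re = (‖deriv h 0‖ ^ 2 - ‖deriv g 0‖ ^ 2) / ‖deriv φ 0‖ ^ 2 := by
      simp only [hQ]
      rw [re_div_formula, hHn 0 h0mem, hKn 0 h0mem, hφ' 0 h0mem]
    have hpos : 0 < ‖deriv φ 0‖ := by
      rw [norm_pos_iff, hφ' 0 h0mem]; exact hne 0 h0mem
    rw [hQ0] at hre
    rw [← hφ0n]
    have h2 : (‖deriv h 0‖ ^ 2 - ‖deriv g 0‖ ^ 2) / ‖deriv φ 0‖ ^ 2 * ‖deriv φ 0‖ =
        (‖deriv h 0‖ ^ 2 - ‖deriv g 0‖ ^ 2) / ‖deriv φ 0‖ := by
      field_simp
    rw [h2] at hre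
    linarith
  · have h1 : -(starRingEnd ℂ u * (h p + starRingEnd ℂ (g p))) = ((P p).re : ℂ) := by
      apply Complex.ext
      · simp only [hP, hH, hK, Complex.ofReal_re, Complex.add_re, Complex.neg_re, Complex.mul_re,
          Complex.conj_re, Complex.conj_im, Complex.add_im]
        ring
      · simp only [Complex.ofReal_im]
        simp only [hφ, hH, hK, Complex.sub_im, Complex.neg_im, Complex.mul_im, Complex.conj_re,
          Complex.conj_im] at him
        simp only [Complex.neg_im, Complex.mul_im, Complex.add_re, Complex.add_im,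
          Complex.conj_re, Complex.conj_im]
        linarith
    have h2 : h p + starRingEnd ℂ (g p) = (starRingEnd ℂ u * u) * (h p + starRingEnd ℂ (g p)) := by
      rw [huu, one_mul]
    rw [h2]
    push_cast
    rw [← h1]
    ring

end

end Pool.Agent.Lib.MP_7682a8_an.H10
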