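import Mathlib
import Pool.Agent.Lib.MP_7682a8_an.H10.Origin

/-!
The ray theorem from an arbitrary point of the disc, and the harmonic Koebe function.
-/

set_option autoImplicit false

open Metric MeasureTheory Set

namespace Pool.Agent.Lib.MP_7682a8_an.H10

noncomputable section

/-- the ray theorem with an arbitrary base point. -/
lemma ray_point {h g : ℂ → ℂ} (hh : DifferentiableOn ℂ h (ball 0 1))
    (hg : DifferentiableOn ℂ g (ball 0 1))
    (hlt : ∀ z ∈ ball (0:ℂ) 1, ‖deriv g z‖ < ‖deriv h z‖) {c : ℂ} (hc : c ∈ ball (0:ℂ) 1)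
    {u : ℂ} (hu : ‖u‖ = 1) {r : ℝ} (hr0 : 0 < r) (hr1 : r < 1) :
    ∃ z ∈ ball (0:ℂ) 1, ‖z - c‖ = r * ‖1 - starRingEnd ℂ c * z‖ ∧ ∃ ρ : ℝ,
      r / 6 * ((1 - ‖c‖ ^ 2) * ((‖deriv h c‖ ^ 2 - ‖deriv g c‖ ^ 2) /
        ‖starRingEnd ℂ u * deriv h c - u * deriv g c‖)) ≤ ρ ∧
      h z + starRingEnd ℂ (g z) = h c + starRingEnd ℂ (g c) + ρ * u := by
  have hcn : ‖c‖ < 1 := by simpa using hc
  have hcc : starRingEnd ℂ c * c = ((‖c‖ ^ 2 : ℝ) : ℂ) := by
    rw [Complex.conj_mul']; push_cast; ring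
  have hc2 : 0 < 1 - ‖c‖ ^ 2 := by nlinarith [norm_nonneg c]
  have hden : ∀ z ∈ ball (0:ℂ) 1, 1 + starRingEnd ℂ c * z ≠ 0 := by
    intro z hz h0
    have hz' : ‖z‖ < 1 := by simpa using hz
    have h1 : starRingEnd ℂ c * z = -1 := by linear_combination h0
    have h2 : ‖starRingEnd ℂ c * z‖ = 1 := by rw [h1]; simp
    rw [norm_mul, Complex.norm_conj] at h2
    nlinarith [norm_nonneg c, norm_nonneg z]
  obtain ⟨T, hT⟩ : ∃ T : ℂ → ℂ, ∀ z, T z = (z + c) / (1 + starRingEnd ℂ c * z) := ⟨_, fun _ => rfl⟩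
  have hTeq : T = fun z => (z + c) / (1 + starRingEnd ℂ c * z) := funext hT
  have hTmem : ∀ z ∈ ball (0:ℂ) 1, T z ∈ ball (0:ℂ) 1 := by
    intro z hz
    have hz' : ‖z‖ < 1 := by simpa using hz
    rw [mem_ball_zero_iff, hT, norm_div, div_lt_one (norm_pos_iff.mpr (hden z hz))]
    have key : ‖1 + starRingEnd ℂ c * z‖ ^ 2 - ‖z + c‖ ^ 2 = (1 - ‖z‖ ^ 2) * (1 - ‖c‖ ^ 2) := by
      rw [← Complex.normSq_eq_norm_sq, ← Complex.normSq_eq_norm_sq, ← Complex.normSq_eq_norm_sq,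
        ← Complex.normSq_eq_norm_sq]
      simp only [Complex.normSq_apply, Complex.add_re, Complex.add_im, Complex.mul_re,
        Complex.mul_im, Complex.one_re, Complex.one_im, Complex.conj_re, Complex.conj_im]
      ring
    have h2 : 0 < 1 - ‖z‖ ^ 2 := by nlinarith [norm_nonneg z]
    have h3 : ‖z + c‖ ^ 2 < ‖1 + starRingEnd ℂ c * z‖ ^ 2 := by
      have := mul_pos h2 hc2
      linarith
    exact lt_of_pow_lt_pow_left₀ 2 (norm_nonneg _) h3
  have hTder : ∀ z ∈ ball (0:ℂ) 1,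
      HasDerivAt T (((1 - ‖c‖ ^ 2 : ℝ) : ℂ) / (1 + starRingEnd ℂ c * z) ^ 2) z := by
    intro z hz
    rw [hTeq]
    have a1 : HasDerivAt (fun z : ℂ => z + c) 1 z := (hasDerivAt_id z).add_const c
    have a2 : HasDerivAt (fun z : ℂ => 1 + starRingEnd ℂ c * z) (starRingEnd ℂ c * 1) z :=
      ((hasDerivAt_id z).const_mul _).const_add 1
    have a3 := a1.div a2 (hden z hz)
    refine a3.congr_deriv ?_
    congr 1
    have : ((1 - ‖c‖ ^ 2 : ℝ) : ℂ) = 1 - starRingEnd ℂ c * c := by rw [hcc]; push_cast; ring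
    rw [this]; ring
  have hT0 : T 0 = c := by rw [hT]; simp
  have hTd : DifferentiableOn ℂ T (ball 0 1) := fun z hz =>
    (hTder z hz).differentiableAt.differentiableWithinAt
  set H : ℂ → ℂ := fun z => h (T z) - h c with hH
  set K : ℂ → ℂ := fun z => g (T z) - g c with hK
  have hH' : ∀ z ∈ ball (0:ℂ) 1, HasDerivAt H
      (deriv h (T z) * (((1 - ‖c‖ ^ 2 : ℝ) : ℂ) / (1 + starRingEnd ℂ c * z) ^ 2)) z := by
    intro z hz
    have h1 : HasDerivAt h (deriv h (T z)) (T z) :=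
      (hh.differentiableAt (isOpen_ball.mem_nhds (hTmem z hz))).hasDerivAt
    exact (HasDerivAt.comp z h1 (hTder z hz)).sub_const _
  have hK' : ∀ z ∈ ball (0:ℂ) 1, HasDerivAt K
      (deriv g (T z) * (((1 - ‖c‖ ^ 2 : ℝ) : ℂ) / (1 + starRingEnd ℂ c * z) ^ 2)) z := by
    intro z hz
    have h1 : HasDerivAt g (deriv g (T z)) (T z) :=
      (hg.differentiableAt (isOpen_ball.mem_nhds (hTmem z hz))).hasDerivAt
    exact (HasDerivAt.comp z h1 (hTder z hz)).sub_const _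
  have h0mem : (0:ℂ) ∈ ball (0:ℂ) 1 := mem_ball_self one_pos
  obtain ⟨z, hz, ρ, hρ, heq⟩ := ray_origin (h := H) (g := K)
    (fun z hz => (hH' z hz).differentiableAt.differentiableWithinAt)
    (fun z hz => (hK' z hz).differentiableAt.differentiableWithinAt)
    (by simp [hH, hT0]) (by simp [hK, hT0])
    (by
      intro z hz
      rw [(hH' z hz).deriv, (hK' z hz).deriv, norm_mul, norm_mul]
      apply mul_lt_mul_of_pos_right (hlt _ (hTmem z hz))
      rw [norm_pos_iff]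
      apply div_ne_zero
      · exact_mod_cast hc2.ne'
      · exact pow_ne_zero 2 (hden z hz)) hu hr0 hr1
  have hzb : z ∈ ball (0:ℂ) 1 := by rw [mem_ball_zero_iff, hz]; exact hr1
  refine ⟨T z, hTmem z hzb, ?_, ρ, ?_, ?_⟩
  · have hd := hden z hzb
    have h1 : T z - c = z * (((1 - ‖c‖ ^ 2 : ℝ) : ℂ)) / (1 + starRingEnd ℂ c * z) := by
      rw [hT, div_sub' hd]
      congr 1
      have : ((1 - ‖c‖ ^ 2 : ℝ) : ℂ) = 1 - starRingEnd ℂ c * c := by rw [hcc]; push_cast; ring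
      rw [this]; ring
    have h2 : 1 - starRingEnd ℂ c * T z = (((1 - ‖c‖ ^ 2 : ℝ) : ℂ)) / (1 + starRingEnd ℂ c * z) := by
      rw [hT, mul_div_assoc', one_sub_div hd]
      congr 1
      have : ((1 - ‖c‖ ^ 2 : ℝ) : ℂ) = 1 - starRingEnd ℂ c * c := by rw [hcc]; push_cast; ring
      rw [this]; ring
    rw [h1, h2, norm_div, norm_mul, norm_div, hz]
    ring
  · have e1 : deriv H 0 = deriv h c * ((1 - ‖c‖ ^ 2 : ℝ) : ℂ) := by
      rw [(hH' 0 h0mem).deriv, hT0]; simp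
    have e2 : deriv K 0 = deriv g c * ((1 - ‖c‖ ^ 2 : ℝ) : ℂ) := by
      rw [(hK' 0 h0mem).deriv, hT0]; simp
    have e3 : ‖((1 - ‖c‖ ^ 2 : ℝ) : ℂ)‖ = 1 - ‖c‖ ^ 2 := by
      rw [Complex.norm_real, Real.norm_of_nonneg hc2.le]
    rw [e1, e2] at hρ
    have e4 : starRingEnd ℂ u * (deriv h c * ((1 - ‖c‖ ^ 2 : ℝ) : ℂ)) -
        u * (deriv g c * ((1 - ‖c‖ ^ 2 : ℝ) : ℂ)) =
        (starRingEnd ℂ u * deriv h c - u * deriv g c) * ((1 - ‖c‖ ^ 2 : ℝ) : ℂ) := by ring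
    rw [e4, norm_mul, norm_mul, norm_mul, e3] at hρ
    have hlt' := hlt c hc
    have hne : ‖starRingEnd ℂ u * deriv h c - u * deriv g c‖ ≠ 0 := by
      rw [norm_ne_zero_iff, sub_ne_zero]
      intro h1
      have h2 : ‖starRingEnd ℂ u * deriv h c‖ = ‖u * deriv g c‖ := by rw [h1]
      rw [norm_mul, norm_mul, Complex.norm_conj, hu, one_mul, one_mul] at h2
      rw [h2] at hlt'
      exact lt_irrefl _ hlt'
    refine le_trans (le_of_eq ?_) hρ
    field_simp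
  · have : h (T z) - h c + starRingEnd ℂ (g (T z) - g c) = ρ * u := heq
    rw [map_sub] at this
    linear_combination this

end

end Pool.Agent.Lib.MP_7682a8_an.H10
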